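import Pool.Agent.Helper13_CM.ClimB

/-!
# CLIM: the limit of the functionals
Module CLIM of the CM project (MP_31342c_an).
-/

set_option autoImplicit false
set_option linter.unusedSectionVars false

noncomputable section

namespace Pool.Agent.Helper95_CM

open MvPolynomial Filter Topology

namespace H13

section LJ
variable {n M D p : ℕ} [Fact p.Prime] (f' : MvPolynomial (Fin n) ℤ_[p])
  (Dl : PP n (LL (qG n M) ℤ_[p]))

/-- `C^φ ∘ Psi_J` -/
def LJ (D : ℕ) (J : ℕ) (x : PP n (LL (qG n M) ℤ_[p])) : LL (qG n M) ℚ_[p] :=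
  Cph M D p (map (zq p) f') (Psi p (kL (qG n M) ℤ_[p]) J (Fp (cgen (M := M) D f')) Dl x)

lemma LJ_sub (J : ℕ) (x y : PP n (LL (qG n M) ℤ_[p])) :
    LJ f' Dl D J (x - y) = LJ f' Dl D J x - LJ f' Dl D J y := by
  unfold LJ
  rw [sub_eq_add_neg, Psi_add, Psi_neg, Cph_add, Cph_neg, ← sub_eq_add_neg]

lemma LJ_neg (J : ℕ) (x : PP n (LL (qG n M) ℤ_[p])) :
    LJ f' Dl D J (-x) = -LJ f' Dl D J x := by
  unfold LJ
  rw [Psi_neg, Cph_neg]

lemma LJ_C_mul (J : ℕ) (a : LL (qG n M) ℤ_[p]) (x : PP n (LL (qG n M) ℤ_[p])) :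
    LJ f' Dl D J (C a * x) = mL (qG n M) (zq p) a * LJ f' Dl D J x := by
  unfold LJ
  rw [Psi_C_mul, Cph_C_mul]

lemma LJ_sum (J : ℕ) {ι : Type} (T : Finset ι) (x : ι → PP n (LL (qG n M) ℤ_[p])) :
    LJ f' Dl D J (∑ i ∈ T, x i) = ∑ i ∈ T, LJ f' Dl D J (x i) := by
  unfold LJ
  rw [Psi_sum, Cph_sum]

lemma LJ_succ (J : ℕ) (x : PP n (LL (qG n M) ℤ_[p])) :
    LJ f' Dl D (J + 1) x = LJ f' Dl D J x +
      kL (qG n M) ℚ_[p] (zq p (ee p J)) * Cph M D p (map (zq p) f')
        (ptm p J (Fp (cgen (M := M) D f')) Dl x) := by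
  unfold LJ
  rw [Psi_succ, Cph_add, Cph_C_mul, mL_kL]

/-- coefficients -/
def cf {q : ℕ} {R : Type} [CommRing R] (x : LL q R) (m m' : ℤ) (g : Gam q) : R :=
  ((x.coeff m).coeff m').coeff g

lemma cf_add {q : ℕ} {R : Type} [CommRing R] (x y : LL q R) (m m' : ℤ) (g : Gam q) :
    cf (x + y) m m' g = cf x m m' g + cf y m m' g := rfl

lemma cf_sub {q : ℕ} {R : Type} [CommRing R] (x y : LL q R) (m m' : ℤ) (g : Gam q) :
    cf (x - y) m m' g = cf x m m' g - cf y m m' g := by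
  unfold cf
  rw [HahnSeries.coeff_sub, HahnSeries.coeff_sub, HahnSeries.coeff_sub]

lemma cf_neg {q : ℕ} {R : Type} [CommRing R] (x : LL q R) (m m' : ℤ) (g : Gam q) :
    cf (-x) m m' g = -cf x m m' g := by
  unfold cf
  rw [HahnSeries.coeff_neg, HahnSeries.coeff_neg, HahnSeries.coeff_neg]

lemma cf_sum {q : ℕ} {R : Type} [CommRing R] {ι : Type} (T : Finset ι) (x : ι → LL q R)
    (m m' : ℤ) (g : Gam q) : cf (∑ i ∈ T, x i) m m' g = ∑ i ∈ T, cf (x i) m m' g := by
  classical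
  induction T using Finset.induction_on with
  | empty => rw [Finset.sum_empty, Finset.sum_empty]; rfl
  | insert a T ha ih => rw [Finset.sum_insert ha, Finset.sum_insert ha, cf_add, ih]

end LJ

section main
variable {n M D p : ℕ} [Fact p.Prime] {f' : MvPolynomial (Fin n) ℤ_[p]}
  {Dl : PP n (LL (qG n M) ℤ_[p])}

/-- the basic error bound -/
lemma err_small (hEst : EstStmt) (hEE : EeStmt) (hn : 1 ≤ n) (hM : 2 ≤ M) (hD : 1 ≤ D)
    (hdeg : ∀ k, degreeOf k f' ≤ M) (hp3 : 3 ≤ p) (J k X : ℕ) (u : ℤ_[p])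
    (hu : ‖zq p u‖ ≤ ‖zq p (ee p J)‖)
    (x : PP n (LL (qG n M) ℤ_[p])) (hx : IsCone M true x) (hc : ∀ s, NN (coeff s x))
    (hl : Supp (fun s => J + 1 ≤ s 0 ∧ s 0 ≤ J + k) x) (m m' : ℤ) (g : Gam (qG n M))
    (hm : m ≤ X) (hm' : m' ≤ X) :
    ‖cf (kL (qG n M) ℚ_[p] (zq p u) * Cph M D p (map (zq p) f') x) m m' g‖ ≤
      ((p : ℝ) ^ J)⁻¹ * (p : ℝ) ^ (2 * n * Nat.log p (M * (J + (k + 2 * X)))) := by
  have h1 := bnd_Cph hEst f' hn hM hD hdeg (J + 1) (J + k) X x hx hc hl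
  unfold cf
  rw [cf3_kL_mul, norm_mul]
  have h2 := h1.2 m m' g hm hm'
  have h3 := ee_norm hEE hp3 J
  calc _ ≤ ‖zq p (ee p J)‖ * BB n M p (J + 1) (J + k) X :=
        mul_le_mul hu h2 (norm_nonneg _) (norm_nonneg _)
    _ = _ := by
        unfold BB
        rw [← mul_assoc, Nat.add_sub_cancel, h3, add_assoc J k]

lemma ptm_NN (s : Expo n) (j : ℕ) (hDl : ∀ s, NN (coeff s Dl)) :
    ∀ s', NN (coeff s' (ptm p j (Fp (cgen (M := M) D f')) Dl (mon s))) := by
  have hp := (Fact.out : p.Prime).pos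
  -- polynomials with coefficients in the subring
  have hmul : ∀ x y : PP n (LL (qG n M) ℤ_[p]), (∀ s, NN (coeff s x)) → (∀ s, NN (coeff s y)) →
      ∀ s, NN (coeff s (x * y)) := by
    classical
    intro x y hx hy s
    rw [coeff_mul]
    exact NN.sum _ _ fun i _ => (hx _).mul (hy _)
  have hC : ∀ a : LL (qG n M) ℤ_[p], NN a → ∀ (s0 s : Expo n), NN (coeff s (monomial s0 a)) := by
    classical
    intro a ha s0 s
    rw [coeff_monomial]
    split_ifs
    · exact ha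
    · exact NN.zero
  have hpow : ∀ x : PP n (LL (qG n M) ℤ_[p]), (∀ s, NN (coeff s x)) → ∀ k s,
      NN (coeff s (x ^ k)) := by
    intro x hx k
    induction k with
    | zero =>
      intro s
      rw [pow_zero]
      exact hC 1 NN.one 0 s
    | succ k ih =>
      rw [pow_succ]
      exact hmul _ _ ih hx
  have hF : ∀ s, NN (coeff s (Fp (cgen (M := M) D f'))) := by
    intro s
    unfold Fp
    rw [coeff_sum]
    exact NN.sum _ _ fun β _ => hC _ (NN.cgen D f' β) _ _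
  intro s'
  unfold ptm
  rw [coeff_psi hp, VV_mon]
  exact hmul _ _ (hpow _ hDl j) (hmul _ _ (hmul _ _ (hC _ (NN.natCast _) _) (hC _ NN.one _))
    (hpow _ hF _)) _

lemma Psi_cone (hDc : IsCone M false Dl) (hDl : HasLev p Dl) (s : Expo n)
    (hs : InCone M true s) (J : ℕ) :
    IsCone M true (Psi p (kL (qG n M) ℤ_[p]) J (Fp (cgen (M := M) D f')) Dl (mon s)) := by
  induction J with
  | zero =>
    have : Psi p (kL (qG n M) ℤ_[p]) 0 (Fp (cgen (M := M) D f')) Dl (mon s) = 0 := by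
      unfold Psi TJ
      rw [Finset.range_zero, Finset.sum_empty, zero_mul, psi_zero (Fact.out : p.Prime).pos]
    rw [this]
    exact Supp.zero
  | succ J ih =>
    rw [Psi_succ]
    exact ih.add (Supp.C_mul _ (ptm_facts hDc hDl s hs J).1)

/-- existence of the limits -/
lemma lim_exists (hEst : EstStmt) (hEE : EeStmt) (hn : 1 ≤ n) (hM : 2 ≤ M) (hD : 1 ≤ D)
    (hdeg : ∀ k, degreeOf k f' ≤ M) (hp3 : 3 ≤ p) (hDc : IsCone M false Dl)
    (hDl : HasLev p Dl) (hDn : ∀ s, NN (coeff s Dl)) (s : Expo n) (hs : InCone M true s)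
    (m m' : ℤ) (g : Gam (qG n M)) :
    ∃ ℓ : ℚ_[p], Tendsto (fun J => cf (LJ f' Dl D J (mon s)) m m' g) atTop (𝓝 ℓ) := by
  apply cauchySeq_tendsto_of_complete
  apply NonarchimedeanAddGroup.cauchySeq_of_tendsto_sub_nhds_zero
  set X : ℕ := max m.toNat m'.toNat with hX
  have hm : m ≤ X := by
    have := Int.self_le_toNat m
    have h2 : (m.toNat : ℤ) ≤ X := by exact_mod_cast le_max_left _ _
    omega
  have hm' : m' ≤ X := by
    have := Int.self_le_toNat m'
    have h2 : (m'.toNat : ℤ) ≤ X := by exact_mod_cast le_max_right _ _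
    omega
  have hl := lim_zero n M (mm p (s 0) + 2 * X) (Fact.out : p.Prime).one_lt
  refine squeeze_zero_norm ?_ hl
  intro J
  rw [LJ_succ, cf_add, add_sub_cancel_left]
  have hf := ptm_facts (c := cgen (M := M) D f') hDc hDl s hs J
  refine err_small hEst hEE hn hM hD hdeg hp3 J (mm p (s 0)) X (ee p J) le_rfl _ hf.1
    (ptm_NN s J hDn) ?_ m m' g hm hm'
  have h1 := mm_pos (p := p) (InCone.lev_pos (M := M) hn hs)
  intro s' hs'
  have := hf.2 s' hs'
  omega

/-- passage to the limit in a linear relation -/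
lemma lim_rel {A : Expo n → ℤ → ℤ → Gam (qG n M) → ℚ_[p]}
    (hA : ∀ s, InCone M true s → ∀ m m' g,
      Tendsto (fun J => cf (LJ f' Dl D J (mon s)) m m' g) atTop (𝓝 (A s m m' g)))
    (s : Expo n) (hs : InCone M true s) (a : ℚ_[p]) (m m' : ℤ) (g : Gam (qG n M))
    (b : Grid n M → ℚ_[p]) (m1 m1' : ℤ) (g1 : Grid n M → Gam (qG n M)) (c : ℕ)
    (h : ∀ J, ‖a * cf (LJ f' Dl D (J + 1) (mon s)) m m' g -
      ∑ β, b β * cf (LJ f' Dl D (J + 1) (mon (s + gex β))) m1 m1' (g1 β)‖ ≤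
      ((p : ℝ) ^ J)⁻¹ * (p : ℝ) ^ (2 * n * Nat.log p (M * (J + c)))) :
    a * A s m m' g = ∑ β, b β * A (s + gex β) m1 m1' (g1 β) := by
  have h1 : Tendsto (fun J => a * cf (LJ f' Dl D (J + 1) (mon s)) m m' g -
      ∑ β, b β * cf (LJ f' Dl D (J + 1) (mon (s + gex β))) m1 m1' (g1 β)) atTop
      (𝓝 (a * A s m m' g - ∑ β, b β * A (s + gex β) m1 m1' (g1 β))) := by
    apply Tendsto.sub
    · exact ((hA s hs m m' g).comp (tendsto_add_atTop_nat 1)).const_mul a
    · apply tendsto_finsetSum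
      intro β _
      exact ((hA (s + gex β) (inCone_add_gex hs β) m1 m1' (g1 β)).comp
        (tendsto_add_atTop_nat 1)).const_mul (b β)
  have h2 := squeeze_zero_norm h (lim_zero n M c (Fact.out : p.Prime).one_lt)
  exact sub_eq_zero.mp (tendsto_nhds_unique h1 h2)

lemma norm_pee (J : ℕ) : ‖zq p ((p : ℤ_[p]) * ee p J)‖ ≤ ‖zq p (ee p J)‖ := by
  rw [map_mul, norm_mul]
  calc _ ≤ 1 * ‖zq p (ee p J)‖ := mul_le_mul_of_nonneg_right (norm_zq _) (norm_nonneg _)
    _ = _ := one_mul _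

end main

end H13

open H13 in
/-- CLIM -/
theorem clim (hPSO : PsoStmt) (hIFN : IfnStmt) (hCFN : CfnStmt) (hCPH : CphStmt)
    (hVALI : ValiStmt) (hEst : EstStmt) (hFRB : FrbStmt) (hDLE : DleStmt) (hEE : EeStmt)
    (hOPC : OpcStmt) : ClimStmt := by
  classical
  intro n M D p _ f' Dl hn hM hD hdeg hMp hp3 hIs
  have hp : 0 < p := (Fact.out : p.Prime).pos
  obtain ⟨hFBt, hFBw, -, -⟩ := hFRB (qG n M) p
  obtain ⟨hDc, hDl⟩ := (hDLE n M p _ _ _ _ (cgen (M := M) D f') hFBt).2 Dl hIs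
  obtain ⟨hRDl, hIs0⟩ := redP_Dl hD f' Dl hIs
  have hDn : ∀ s, NN (coeff s Dl) := fun s => (hRDl s).1
  obtain ⟨hC1, hC2, hC3⟩ := hCPH n M D p f' hn hM hD hdeg
  have hG : GData n M D ℚ_[p] (map (zq p) f') := by
    refine ⟨hn, hM, hD, fun k => ?_⟩
    rw [degreeOf_eq_sup]
    refine (Finset.sup_mono (support_map_subset _ _)).trans ?_
    rw [← degreeOf_eq_sup]
    exact hdeg k
  obtain ⟨-, c2, c3, -, -⟩ := hCFN n M D ℚ_[p] (map (zq p) f') hG
  obtain ⟨o1, o2, o3, -, -, -, -, -, o9⟩ := hOPC (qG n M) ℤ_[p] ℚ_[p] (zq p) p hp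
  obtain ⟨-, -, -, -, -, -, -, -, o9'⟩ := hOPC (qG n M) ℚ_[p] ℚ_[p] (RingHom.id _) p hp
  have hSt := subB_NNs (M := M) (D := D) f' (thLt (qG n M) ℤ_[p]) (fun x hx => NN.thLt hx)
  have hSw := subB_NNs (M := M) (D := D) f' (thLw (qG n M) ℤ_[p]) (fun x hx => NN.thLw hx)
  -- the limits
  have hex : ∀ s, InCone M true s → ∀ m m' g, ∃ ℓ : ℚ_[p],
      Tendsto (fun J => cf (LJ f' Dl D J (mon s)) m m' g) atTop (𝓝 ℓ) :=
    fun s hs m m' g => lim_exists hEst hEE hn hM hD hdeg hp3 hDc hDl hDn s hs m m' g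
  have hex' : ∀ (s : Expo n) (m m' : ℤ) (g : Gam (qG n M)), ∃ ℓ : ℚ_[p], InCone M true s →
      Tendsto (fun J => cf (LJ f' Dl D J (mon s)) m m' g) atTop (𝓝 ℓ) := by
    intro s m m' g
    by_cases hs : InCone M true s
    · obtain ⟨ℓ, hℓ⟩ := hex s hs m m' g
      exact ⟨ℓ, fun _ => hℓ⟩
    · exact ⟨0, fun h => absurd h hs⟩
  choose A hA' using hex'
  have hA : ∀ s, InCone M true s → ∀ m m' g,
      Tendsto (fun J => cf (LJ f' Dl D J (mon s)) m m' g) atTop (𝓝 (A s m m' g)) :=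
    fun s hs m m' g => hA' s m m' g hs
  have hmoncone : ∀ s : Expo n, InCone M true s →
      IsCone M true (mon s : PP n (LL (qG n M) ℤ_[p])) := fun s hs => Supp.monomial hs _
  have hmonconeQ : ∀ s : Expo n, InCone M true s →
      IsCone M true (mon s : PP n (LL (qG n M) ℚ_[p])) := fun s hs => Supp.monomial hs _
  have hmonlev : ∀ s : Expo n, LevLe (s 0) (mon s : PP n (LL (qG n M) ℤ_[p])) :=
    fun s => Supp.monomial (P := fun s' => s' 0 ≤ s 0) le_rfl _
  have hmonNN : ∀ s s' : Expo n, coeff s' (mon s : PP n (LL (qG n M) ℤ_[p])) ∈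
      NNs (qG n M) ℤ_[p] := by
    intro s s'
    unfold mon
    rw [coeff_monomial]
    split_ifs
    · exact NN.one
    · exact NN.zero
  -- bounds for the error terms
  have herr : ∀ (J : ℕ) (s : Expo n) (ρ : PP n (LL (qG n M) ℤ_[p])), IsCone M true ρ →
      (∀ s, coeff s ρ ∈ NNs (qG n M) ℤ_[p]) →
      Supp (fun s' => J + 1 ≤ s' 0 ∧ s' 0 ≤ J + 1 + mm p (s 0)) ρ →
      ∀ (m m' : ℤ) (g : Gam (qG n M)),
      ‖cf (Cph M D p (map (zq p) f')
        (C (kL (qG n M) ℤ_[p] ((p : ℤ_[p]) * ee p (J + 1 - 1))) * ρ)) m m' g‖ ≤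
      ((p : ℝ) ^ J)⁻¹ * (p : ℝ) ^ (2 * n * Nat.log p (M * (J + ((1 + mm p (s 0)) +
        2 * max m.toNat m'.toNat)))) := by
    intro J s ρ hρ hρn hρl m m' g
    rw [Cph_C_mul, mL_kL, Nat.add_sub_cancel]
    refine err_small hEst hEE hn hM hD hdeg hp3 J (1 + mm p (s 0)) (max m.toNat m'.toNat)
      ((p : ℤ_[p]) * ee p J) (norm_pee J) ρ hρ hρn ?_ m m' g ?_ ?_
    · intro s' hs'
      have := hρl s' hs'
      simp only at this ⊢
      omega
    · have := Int.self_le_toNat m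
      have h2 : (m.toNat : ℤ) ≤ (max m.toNat m'.toNat : ℕ) := by exact_mod_cast le_max_left _ _
      omega
    · have := Int.self_le_toNat m'
      have h2 : (m'.toNat : ℤ) ≤ (max m.toNat m'.toNat : ℕ) := by exact_mod_cast le_max_right _ _
      omega
  -- horizontality for t
  have hT : ∀ s, InCone M true s → ∀ (m m' : ℤ) g, (m : ℚ_[p]) * A s m m' g =
      ∑ β : Grid n M, (-(D : ℚ_[p])) * A (s + gex β) (m - D) m' (g - ev (qG n M) (gi β)) := by
    intro s hs m m' g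
    refine lim_rel hA s hs _ m m' g (fun _ => -(D : ℚ_[p])) (m - D) m'
      (fun β => g - ev (qG n M) (gi β)) ((1 + mm p (s 0)) + 2 * max m.toNat m'.toNat) ?_
    intro J
    obtain ⟨-, τ, ρ, hτ, hρ, hρn, hρl, hid⟩ := hPSO n M p true _ (kL (qG n M) ℤ_[p])
      (phL (qG n M) ℤ_[p] p) (thLt (qG n M) ℤ_[p]) (cgen (M := M) D f') Dl (J + 1) (s 0)
      (NNs (qG n M) ℤ_[p]) hn (by omega) hp3 (by omega) hFBt hIs hSt (mon s) (hmoncone s hs)
      (hmonlev s) (hmonNN s)
    have h1 := congrArg (Cph M D p (map (zq p) f')) hid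
    rw [Cph_add, Cph_add, ← hC2 _ (Psi_cone hDc hDl s hs (J + 1)), Cph_sum,
      Finset.sum_eq_zero (fun j _ => hC1 j (τ j) (hτ j).1), add_zero] at h1
    have h2 : Cph M D p (map (zq p) f') (Psi p (kL (qG n M) ℤ_[p]) (J + 1)
        (Fp (cgen (M := M) D f')) Dl
        (nab (thLt (qG n M) ℤ_[p]) (cgen (M := M) D f') (mon s))) =
        - ∑ β : Grid n M, thLt (qG n M) ℚ_[p] (cgen D (map (zq p) f') β) *
          LJ f' Dl D (J + 1) (mon (s + gex β)) := by
      change LJ f' Dl D (J + 1) _ = _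
      rw [nab_mon hFBt.der, LJ_neg, LJ_sum]
      congr 1
      apply Finset.sum_congr rfl
      intro β _
      rw [LJ_C_mul, o2, mL_cgen]
    rw [h2] at h1
    have h3 := congrArg (fun x => cf x m m' g) h1
    rw [cf_neg, cf_sum, cf_add] at h3
    have h4 : cf (thLt (qG n M) ℚ_[p] (Cph M D p (map (zq p) f')
        (Psi p (kL (qG n M) ℤ_[p]) (J + 1) (Fp (cgen (M := M) D f')) Dl (mon s)))) m m' g =
        (m : ℚ_[p]) * cf (LJ f' Dl D (J + 1) (mon s)) m m' g := by
      show (((m : OO (qG n M) ℚ_[p]) * _).coeff m').coeff g = _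
      rw [← zsmul_eq_mul, HahnSeries.coeff_smul, HahnSeries.coeff_smul, zsmul_eq_mul]
      rfl
    have h5 : ∀ β : Grid n M, cf (thLt (qG n M) ℚ_[p] (cgen D (map (zq p) f') β) *
          LJ f' Dl D (J + 1) (mon (s + gex β))) m m' g =
        (D : ℚ_[p]) * cf (LJ f' Dl D (J + 1) (mon (s + gex β))) (m - D) m'
          (g - ev (qG n M) (gi β)) := fun β => cf3_thLt_cgen D _ β _ m m' g
    rw [Finset.sum_congr rfl (fun β _ => h5 β), h4] at h3
    have h6 := herr J s ρ hρ hρn (by simpa using hρl) m m' g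
    have h7 : (m : ℚ_[p]) * cf (LJ f' Dl D (J + 1) (mon s)) m m' g -
        ∑ β : Grid n M, -(D : ℚ_[p]) * cf (LJ f' Dl D (J + 1) (mon (s + gex β))) (m - D) m'
          (g - ev (qG n M) (gi β)) =
        - cf (Cph M D p (map (zq p) f')
        (C (kL (qG n M) ℤ_[p] ((p : ℤ_[p]) * ee p (J + 1 - 1))) * ρ)) m m' g := by
      simp only [neg_mul, Finset.sum_neg_distrib]
      linear_combination -h3
    rw [h7, norm_neg]
    exact h6
  -- horizontality for w
  have hW : ∀ s, InCone M true s → ∀ (m m' : ℤ) g, (m' : ℚ_[p]) * A s m m' g =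
      ∑ β : Grid n M, (ftil (map (zq p) f') β) * A (s + gex β) m (m' - 1) g := by
    intro s hs m m' g
    refine lim_rel hA s hs _ m m' g (fun β => ftil (map (zq p) f') β) m (m' - 1)
      (fun β => g) ((1 + mm p (s 0)) + 2 * max m.toNat m'.toNat) ?_
    intro J
    obtain ⟨-, τ, ρ, hτ, hρ, hρn, hρl, hid⟩ := hPSO n M p true _ (kL (qG n M) ℤ_[p])
      (phL (qG n M) ℤ_[p] p) (thLw (qG n M) ℤ_[p]) (cgen (M := M) D f') Dl (J + 1) (s 0)
      (NNs (qG n M) ℤ_[p]) hn (by omega) hp3 (by omega) hFBw hIs hSw (mon s) (hmoncone s hs)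
      (hmonlev s) (hmonNN s)
    have h1 := congrArg (Cph M D p (map (zq p) f')) hid
    rw [Cph_add, Cph_add, ← hC3 _ (Psi_cone hDc hDl s hs (J + 1)), Cph_sum,
      Finset.sum_eq_zero (fun j _ => hC1 j (τ j) (hτ j).1), add_zero] at h1
    have h2 : Cph M D p (map (zq p) f') (Psi p (kL (qG n M) ℤ_[p]) (J + 1)
        (Fp (cgen (M := M) D f')) Dl
        (nab (thLw (qG n M) ℤ_[p]) (cgen (M := M) D f') (mon s))) =
        - ∑ β : Grid n M, thLw (qG n M) ℚ_[p] (cgen D (map (zq p) f') β) *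
          LJ f' Dl D (J + 1) (mon (s + gex β)) := by
      change LJ f' Dl D (J + 1) _ = _
      rw [nab_mon hFBw.der, LJ_neg, LJ_sum]
      congr 1
      apply Finset.sum_congr rfl
      intro β _
      rw [LJ_C_mul, o3, mL_cgen]
    rw [h2] at h1
    have h3 := congrArg (fun x => cf x m m' g) h1
    rw [cf_neg, cf_sum, cf_add] at h3
    have h4 : cf (thLw (qG n M) ℚ_[p] (Cph M D p (map (zq p) f')
        (Psi p (kL (qG n M) ℤ_[p]) (J + 1) (Fp (cgen (M := M) D f')) Dl (mon s)))) m m' g =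
        (m' : ℚ_[p]) * cf (LJ f' Dl D (J + 1) (mon s)) m m' g := by
      show ((m' : CC (qG n M) ℚ_[p]) * _).coeff g = _
      rw [← zsmul_eq_mul, HahnSeries.coeff_smul, zsmul_eq_mul]
      rfl
    have h5 : ∀ β : Grid n M, cf (thLw (qG n M) ℚ_[p] (cgen D (map (zq p) f') β) *
          LJ f' Dl D (J + 1) (mon (s + gex β))) m m' g =
        - (ftil (map (zq p) f') β * cf (LJ f' Dl D (J + 1) (mon (s + gex β))) m (m' - 1) g) :=
      fun β => cf3_thLw_cgen D _ β _ m m' g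
    rw [Finset.sum_congr rfl (fun β _ => h5 β), h4] at h3
    have h6 := herr J s ρ hρ hρn (by simpa using hρl) m m' g
    have h7 : (m' : ℚ_[p]) * cf (LJ f' Dl D (J + 1) (mon s)) m m' g -
        ∑ β : Grid n M, ftil (map (zq p) f') β *
          cf (LJ f' Dl D (J + 1) (mon (s + gex β))) m (m' - 1) g =
        - cf (Cph M D p (map (zq p) f')
        (C (kL (qG n M) ℤ_[p] ((p : ℤ_[p]) * ee p (J + 1 - 1))) * ρ)) m m' g := by
      simp only [Finset.sum_neg_distrib, neg_neg] at h3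
      linear_combination -h3
    rw [h7, norm_neg]
    exact h6
  -- no negative exponents
  have hLJNN : ∀ s, InCone M true s → ∀ J, Red (LJ f' Dl D J (mon s))
      (Ifun M (map (zq p) (Psi p (RingHom.id ℤ_[p]) J
        (Fp (fun β : Grid n M => ((bin β : ℕ) : ℤ_[p])))
        (cder (kap (qG n M) ℤ_[p]) Dl) (mon s))) : ℚ_[p]) :=
    fun s _ J => red_Cph _ (redP_Psi hD f' Dl hIs J s)
  have hneg : ∀ s, InCone M true s → ∀ m m' g, m < 0 ∨ m' < 0 → A s m m' g = 0 := by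
    intro s hs m m' g h
    refine tendsto_nhds_unique (hA s hs m m' g) ?_
    have : (fun J => cf (LJ f' Dl D J (mon s)) m m' g) = fun _ => 0 := by
      funext J
      unfold cf
      rw [(hLJNN s hs J).1 m m' h]
      rfl
    rw [this]
    exact tendsto_const_nhds
  have hg0 : ∀ s, InCone M true s → ∀ g, g ≠ 0 → A s 0 0 g = 0 := by
    intro s hs g hg
    refine tendsto_nhds_unique (hA s hs 0 0 g) ?_
    have : (fun J => cf (LJ f' Dl D J (mon s)) 0 0 g) = fun _ => 0 := by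
      funext J
      unfold cf
      rw [(hLJNN s hs J).2, HahnSeries.C_apply, HahnSeries.coeff_single_of_ne hg]
    rw [this]
    exact tendsto_const_nhds
  -- the operators at t = w = 0
  have hD0 : ∀ (i : Fin (n + 1)) (s : Expo n), InCone M true s → ((s i : ℕ) : ℚ_[p]) * A s 0 0 0 =
      ∑ β : Grid n M, (((gex β i : ℕ) : ℚ_[p]) * ((bin β : ℕ) : ℚ_[p])) * A (s + gex β) 0 0 0 := by
    intro i s hs
    refine lim_rel hA s hs _ 0 0 0
      (fun β => ((gex β i : ℕ) : ℚ_[p]) * ((bin β : ℕ) : ℚ_[p])) 0 0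
      (fun β => 0) ((1 + mm p (s 0)) + 2 * max (0 : ℤ).toNat (0 : ℤ).toNat) ?_
    intro J
    obtain ⟨hP1, -⟩ := hPSO n M p true _ (kL (qG n M) ℤ_[p])
      (phL (qG n M) ℤ_[p] p) (thLt (qG n M) ℤ_[p]) (cgen (M := M) D f') Dl (J + 1) (s 0)
      (NNs (qG n M) ℤ_[p]) hn (by omega) hp3 (by omega) hFBt hIs hSt (mon s) (hmoncone s hs)
      (hmonlev s) (hmonNN s)
    obtain ⟨τ, ρ, hτ, hρ, hρn, hρl, hid⟩ := hP1 i
    have h1 := congrArg (Cph M D p (map (zq p) f')) hid
    rw [Cph_add, Cph_sum,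
      Finset.sum_eq_zero (fun j _ => hC1 j (τ j) (hτ j).1), zero_add] at h1
    have h2 : Cph M D p (map (zq p) f') (Psi p (kL (qG n M) ℤ_[p]) (J + 1)
        (Fp (cgen (M := M) D f')) Dl (Dop (cgen (M := M) D f') i (mon s))) =
        ((s i : ℕ) : LL (qG n M) ℚ_[p]) * LJ f' Dl D (J + 1) (mon s)
        - ∑ β : Grid n M, ((gex β i : ℕ) : LL (qG n M) ℚ_[p]) *
          (cgen D (map (zq p) f') β * LJ f' Dl D (J + 1) (mon (s + gex β))) := by
      change LJ f' Dl D (J + 1) _ = _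
      rw [Dop_mon, LJ_sub, LJ_sum, LJ_C_mul, map_natCast]
      congr 1
      apply Finset.sum_congr rfl
      intro β _
      rw [LJ_C_mul, map_mul, map_natCast, mL_cgen, mul_assoc]
    rw [h2] at h1
    have h3 := congrArg (fun x => cf x 0 0 0) h1
    rw [cf_sub, cf_sum] at h3
    have hcast : ∀ (k : ℕ) (x : LL (qG n M) ℚ_[p]), cf ((k : LL (qG n M) ℚ_[p]) * x) 0 0 0 =
        (k : ℚ_[p]) * cf x 0 0 0 := by
      intro k x
      have h := cf3_kL_mul (k : ℚ_[p]) x 0 0 0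
      rw [map_natCast] at h
      exact h
    have h5 : ∀ β : Grid n M, cf (((gex β i : ℕ) : LL (qG n M) ℚ_[p]) *
          (cgen D (map (zq p) f') β * LJ f' Dl D (J + 1) (mon (s + gex β)))) 0 0 0 =
        (((gex β i : ℕ) : ℚ_[p]) * ((bin β : ℕ) : ℚ_[p])) *
          cf (LJ f' Dl D (J + 1) (mon (s + gex β))) 0 0 0 := by
      intro β
      rw [hcast, mul_assoc]
      congr 1
      exact cf3_cgen_zero hD _ β (hLJNN _ (inCone_add_gex hs β) (J + 1)).1 0
    rw [Finset.sum_congr rfl (fun β _ => h5 β), hcast] at h3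
    rw [h3]
    exact herr J s ρ hρ hρn (by simpa using hρl) 0 0 0
  -- the scalar
  set s0 : Expo n := mkE 1 (fun _ => 1) with hs0def
  have hs0 : InCone M true s0 := by
    intro k
    rw [hs0def, mkE_succ, mkE_zero]
    omega
  have hs01 : s0 0 = 1 := rfl
  have hIq0 : ‖algebraMap ℚ ℚ_[p] (Iq M s0)‖ = 1 := by
    have hfac : ∀ k : ℕ, k < p → ‖((k.factorial : ℕ) : ℚ_[p])‖ = 1 := by
      intro k hk
      rw [Padic.norm_natCast_eq_one_iff, Nat.coprime_comm]
      rw [Nat.coprime_comm, (Fact.out : p.Prime).coprime_iff_not_dvd,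
        (Fact.out : p.Prime).dvd_factorial]
      omega
    have hIq : Iq M s0 = ∏ _k : Fin n,
        (((M - 2).factorial : ℚ) / ((M - 1).factorial : ℚ)) := by
      unfold Iq
      rw [if_pos hs0, hs01, Nat.sub_self, Nat.factorial_zero, Nat.cast_one, one_mul, mul_one]
      apply Finset.prod_congr rfl
      intro k _
      rw [hs0def, mkE_succ, Nat.sub_self, Nat.factorial_zero, Nat.cast_one, one_mul]
      rfl
    rw [hIq, map_prod, norm_prod]
    apply Finset.prod_eq_one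
    intro k _
    rw [map_div₀, map_natCast, map_natCast, norm_div, hfac _ (by omega), hfac _ (by omega),
      div_one]
  have hIq0' : algebraMap ℚ ℚ_[p] (Iq M s0) ≠ 0 := by
    intro h
    rw [h, norm_zero] at hIq0
    exact zero_ne_one hIq0
  -- the functional at t = w = 0
  have hG0 : ∀ s, InCone M true s →
      A s 0 0 0 * algebraMap ℚ ℚ_[p] (Iq M s0) = A s0 0 0 0 * algebraMap ℚ ℚ_[p] (Iq M s) := by
    intro s hs
    have h := (hIFN n M ℚ_[p] hn hM).2
      (lf (fun s => if InCone M true s then A s 0 0 0 else 0)) ?_ s0 hs0 hs01 s hs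
    · rw [lf_mon, lf_mon, if_pos hs, if_pos hs0] at h
      exact h
    · intro i σ hσ
      refine supp_induction (Q := InCone M true)
        (P := fun σ => lf (fun s => if InCone M true s then A s 0 0 0 else 0)
          (Dop (fun β : Grid n M => ((bin β : ℕ) : ℚ_[p])) i σ) = 0) ?_ ?_ ?_ σ hσ
      · rw [map_zero, map_zero]
      · intro x y hx hy
        rw [map_add, map_add, hx, hy, add_zero]
      · intro s a hs
        have h1 : Dop (fun β : Grid n M => ((bin β : ℕ) : ℚ_[p])) i (C a * mon s) =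
            C a * Dop (fun β : Grid n M => ((bin β : ℕ) : ℚ_[p])) i (mon s) := by
          rw [← smul_eq_C_mul, map_smul, smul_eq_C_mul]
        rw [h1, lf_C_mul, Dop_mon, map_sub, map_sum, lf_C_mul, lf_mon, if_pos hs, hD0 i s hs]
        have h2 : ∀ β : Grid n M, lf (fun s => if InCone M true s then A s 0 0 0 else 0)
            (C (((gex β i : ℕ) : ℚ_[p]) * ((bin β : ℕ) : ℚ_[p])) * mon (s + gex β)) =
            (((gex β i : ℕ) : ℚ_[p]) * ((bin β : ℕ) : ℚ_[p])) * A (s + gex β) 0 0 0 := by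
          intro β
          rw [lf_C_mul, lf_mon, if_pos (inCone_add_gex hs β)]
        rw [Finset.sum_congr rfl (fun β _ => h2 β), sub_self, mul_zero]
  have hval : ‖A s0 0 0 0‖ ≤ ((p : ℝ) ^ (n + 1))⁻¹ := by
    refine le_of_tendsto ((hA s0 hs0 0 0 0).norm) (Eventually.of_forall fun J => ?_)
    have h1 : cf (LJ f' Dl D J (mon s0)) 0 0 0 = (Ifun M (map (zq p) (Psi p (RingHom.id ℤ_[p]) J
        (Fp (fun β : Grid n M => ((bin β : ℕ) : ℤ_[p])))
        (cder (kap (qG n M) ℤ_[p]) Dl) (mon s0))) : ℚ_[p]) := by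
      unfold cf
      rw [(hLJNN s0 hs0 J).2, HahnSeries.C_apply, HahnSeries.coeff_single_same]
    rw [h1]
    exact hVALI n M p J hn hM hMp hp3 _ hIs0 s0 hs0 hs01
  -- the scalar
  obtain ⟨lam0, hlam0⟩ : ∃ lam0 : ℚ_[p], lam0 * algebraMap ℚ ℚ_[p] (Iq M s0) = A s0 0 0 0 :=
    ⟨A s0 0 0 0 / algebraMap ℚ ℚ_[p] (Iq M s0), div_mul_cancel₀ _ hIq0'⟩
  have hlamn : ‖lam0‖ ≤ ((p : ℝ) ^ (n + 1))⁻¹ := by
    rw [← hlam0, norm_mul, hIq0, mul_one] at hval
    exact hval
  have hp1 : (1 : ℝ) < p := by exact_mod_cast (Fact.out : p.Prime).one_lt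
  have hlam1 : ‖lam0‖ ≤ 1 := hlamn.trans (inv_le_one_of_one_le₀ (one_le_pow₀ hp1.le))
  obtain ⟨lam, hzl⟩ : ∃ lam : ℤ_[p], zq p lam = lam0 := ⟨⟨lam0, hlam1⟩, rfl⟩
  refine ⟨lam, ?_, ?_⟩
  · rw [← Ideal.mem_span_singleton, ← PadicInt.norm_le_pow_iff_mem_span_pow,
      PadicInt.norm_def, zpow_neg, zpow_natCast]
    have h1 : ((lam : ℤ_[p]) : ℚ_[p]) = lam0 := hzl
    rw [h1]
    exact hlamn
  · -- values of C
    have hCT : ∀ s, InCone M true s → ∀ (m m' : ℤ) g,
        (m : ℚ_[p]) * cf (Cm M D (map (zq p) f') s) m m' g =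
        ∑ β : Grid n M, (-(D : ℚ_[p])) * cf (Cm M D (map (zq p) f') (s + gex β)) (m - D) m'
          (g - ev (qG n M) (gi β)) := by
      intro s hs m m' g
      have h1 := c2 (mon s) (hmonconeQ s hs)
      rw [Cfun_eq, Cfun_eq, lf_mon, nab_mon o9'.1, map_neg, map_sum] at h1
      have h2 := congrArg (fun x => cf x m m' g) h1
      rw [cf_neg, cf_sum] at h2
      have h4 : cf (thLt (qG n M) ℚ_[p] (Cm M D (map (zq p) f') s)) m m' g =
          (m : ℚ_[p]) * cf (Cm M D (map (zq p) f') s) m m' g := by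
        show (((m : OO (qG n M) ℚ_[p]) * _).coeff m').coeff g = _
        rw [← zsmul_eq_mul, HahnSeries.coeff_smul, HahnSeries.coeff_smul, zsmul_eq_mul]
        rfl
      have h5 : ∀ β : Grid n M, cf (lf (Cm M D (map (zq p) f'))
          (C (thLt (qG n M) ℚ_[p] (cgen D (map (zq p) f') β)) * mon (s + gex β))) m m' g =
          (D : ℚ_[p]) * cf (Cm M D (map (zq p) f') (s + gex β)) (m - D) m'
            (g - ev (qG n M) (gi β)) := by
        intro β
        rw [lf_C_mul, lf_mon]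
        exact cf3_thLt_cgen D _ β _ m m' g
      rw [Finset.sum_congr rfl (fun β _ => h5 β), h4] at h2
      rw [h2]
      simp only [neg_mul, Finset.sum_neg_distrib]
    have hCW : ∀ s, InCone M true s → ∀ (m m' : ℤ) g,
        (m' : ℚ_[p]) * cf (Cm M D (map (zq p) f') s) m m' g =
        ∑ β : Grid n M, (ftil (map (zq p) f') β) *
          cf (Cm M D (map (zq p) f') (s + gex β)) m (m' - 1) g := by
      intro s hs m m' g
      have h1 := c3 (mon s) (hmonconeQ s hs)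
      rw [Cfun_eq, Cfun_eq, lf_mon, nab_mon o9'.2.1, map_neg, map_sum] at h1
      have h2 := congrArg (fun x => cf x m m' g) h1
      rw [cf_neg, cf_sum] at h2
      have h4 : cf (thLw (qG n M) ℚ_[p] (Cm M D (map (zq p) f') s)) m m' g =
          (m' : ℚ_[p]) * cf (Cm M D (map (zq p) f') s) m m' g := by
        show ((m' : CC (qG n M) ℚ_[p]) * _).coeff g = _
        rw [← zsmul_eq_mul, HahnSeries.coeff_smul, zsmul_eq_mul]
        rfl
      have h5 : ∀ β : Grid n M, cf (lf (Cm M D (map (zq p) f'))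
          (C (thLw (qG n M) ℚ_[p] (cgen D (map (zq p) f') β)) * mon (s + gex β))) m m' g =
          - (ftil (map (zq p) f') β * cf (Cm M D (map (zq p) f') (s + gex β)) m (m' - 1) g) := by
        intro β
        rw [lf_C_mul, lf_mon]
        exact cf3_thLw_cgen D _ β _ m m' g
      rw [Finset.sum_congr rfl (fun β _ => h5 β), h4] at h2
      rw [h2]
      simp only [Finset.sum_neg_distrib, neg_neg]
    have hfin := uniq_zero hD (fun β => ftil (map (zq p) f') β) (fun β => ev (qG n M) (gi β))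
      (fun s m m' g => A s m m' g - lam0 * cf (Cm M D (map (zq p) f') s) m m' g) ?_ ?_ ?_ ?_
    · intro s hs m m' g
      have h1 := hfin s hs m m' g
      have h2 := cf3_kL_mul (zq p lam) (Cm M D (map (zq p) f') s) m m' g
      rw [h2, hzl]
      have h3 : lam0 * (((Cm M D (map (zq p) f') s).coeff m).coeff m').coeff g = A s m m' g :=
        (sub_eq_zero.mp h1).symm
      rw [h3]
      exact hA s hs m m' g
    · intro s hs m m' g h
      have h1 : cf (Cm M D (map (zq p) f') s) m m' g = 0 := by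
        unfold cf
        rw [NN.Cm M D _ s m m' h]
        rfl
      rw [hneg s hs m m' g h, h1, mul_zero, sub_zero]
    · intro s hs m m' g
      rw [mul_sub, hT s hs m m' g, mul_left_comm, hCT s hs m m' g, Finset.mul_sum,
        ← Finset.sum_sub_distrib]
      apply Finset.sum_congr rfl
      intro β _
      ring
    · intro s hs m m' g
      rw [mul_sub, hW s hs m m' g, mul_left_comm, hCW s hs m m' g, Finset.mul_sum,
        ← Finset.sum_sub_distrib]
      apply Finset.sum_congr rfl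
      intro β _
      ring
    · intro s hs g
      have h1 : cf (Cm M D (map (zq p) f') s) 0 0 g =
          (HahnSeries.C (algebraMap ℚ ℚ_[p] (Iq M s)) : CC (qG n M) ℚ_[p]).coeff g := by
        unfold cf
        rw [(Red.Cm M D (map (zq p) f') s).2]
      rw [h1, HahnSeries.C_apply]
      by_cases hg : g = 0
      · rw [hg, HahnSeries.coeff_single_same]
        have h2 := hG0 s hs
        rw [← hlam0] at h2
        have h3 : (A s 0 0 0 - lam0 * algebraMap ℚ ℚ_[p] (Iq M s)) *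
            algebraMap ℚ ℚ_[p] (Iq M s0) = 0 := by
          rw [sub_mul, h2]; ring
        exact (mul_eq_zero.mp h3).resolve_right hIq0'
      · rw [hg0 s hs g hg, HahnSeries.coeff_single_of_ne hg, mul_zero, sub_zero]

end Pool.Agent.Helper95_CM
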