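import Pool.Agent.Helper13_CM.Nn

/-!
# CLIM, first part: linearity, estimates
Helper file for the CM project (MP_31342c_an), module CLIM.
-/

set_option autoImplicit false
set_option linter.unusedSectionVars false

noncomputable section

namespace Pool.Agent.Helper95_CM

open MvPolynomial

namespace H13

/-! ### linearity of `V` and `Psi` -/

section lin
variable {n M : ℕ} {R : Type} [CommRing R] (p : ℕ) [Fact p.Prime] (z : ℤ_[p] →+* R)

lemma VV_superset (F x : PP n R) (T : Finset (Expo n)) (hT : x.support ⊆ T) :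
    VV p F x = ∑ s ∈ T, monomial s ((gam p (s 0) : R) * coeff s x) * F ^ (p * mm p (s 0) - s 0) := by
  unfold VV
  apply Finset.sum_subset hT
  intro s _ hs
  rw [notMem_support_iff.mp hs, mul_zero, monomial_zero, zero_mul]

lemma VV_add (F x y : PP n R) : VV p F (x + y) = VV p F x + VV p F y := by
  classical
  rw [VV_superset p F (x + y) (x.support ∪ y.support) support_add,
    VV_superset p F x (x.support ∪ y.support) Finset.subset_union_left,
    VV_superset p F y (x.support ∪ y.support) Finset.subset_union_right,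
    ← Finset.sum_add_distrib]
  apply Finset.sum_congr rfl
  intro s _
  rw [coeff_add, mul_add, map_add, add_mul]

lemma VV_C_mul (F : PP n R) (a : R) (x : PP n R) : VV p F (C a * x) = C a * VV p F x := by
  classical
  rw [VV_superset p F (C a * x) x.support (by rw [← smul_eq_C_mul]; exact support_smul),
    VV, Finset.mul_sum]
  apply Finset.sum_congr rfl
  intro s _
  have h : (gam p (s 0) : R) * coeff s (C a * x) = a * ((gam p (s 0) : R) * coeff s x) := by
    rw [coeff_C_mul]; ring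
  rw [h, ← C_mul_monomial, mul_assoc]

lemma VV_mon (F : PP n R) (s : Expo n) :
    VV p F (mon s) = C (gam p (s 0) : R) * mon s * F ^ (p * mm p (s 0) - s 0) := by
  classical
  rw [VV_superset p F (mon s) {s} (by unfold mon; exact support_monomial_subset),
    Finset.sum_singleton]
  unfold mon
  rw [coeff_monomial, if_pos rfl, C_mul_monomial]

lemma Psi_add (J : ℕ) (F Dl x y : PP n R) :
    Psi p z J F Dl (x + y) = Psi p z J F Dl x + Psi p z J F Dl y := by
  unfold Psi
  rw [VV_add, mul_add, psi_add (Fact.out : p.Prime).pos]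

lemma Psi_C_mul (J : ℕ) (F Dl : PP n R) (a : R) (x : PP n R) :
    Psi p z J F Dl (C a * x) = C a * Psi p z J F Dl x := by
  unfold Psi
  rw [VV_C_mul, ← psi_C_mul (Fact.out : p.Prime).pos]
  congr 1
  ring

lemma Psi_neg (J : ℕ) (F Dl x : PP n R) : Psi p z J F Dl (-x) = -Psi p z J F Dl x := by
  have h := Psi_C_mul p z J F Dl (-1) x
  rw [map_neg, map_one, neg_one_mul, neg_one_mul] at h
  exact h

lemma Psi_zero (J : ℕ) (F Dl : PP n R) : Psi p z J F Dl 0 = 0 := by
  have h := Psi_C_mul p z J F Dl 0 0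
  rw [map_zero, zero_mul] at h
  exact h

lemma Psi_sum (J : ℕ) (F Dl : PP n R) {ι : Type} (T : Finset ι) (x : ι → PP n R) :
    Psi p z J F Dl (∑ i ∈ T, x i) = ∑ i ∈ T, Psi p z J F Dl (x i) := by
  classical
  induction T using Finset.induction_on with
  | empty => rw [Finset.sum_empty, Finset.sum_empty, Psi_zero]
  | insert a T ha ih => rw [Finset.sum_insert ha, Finset.sum_insert ha, Psi_add, ih]

/-- one term of `Psi` -/
def ptm (j : ℕ) (F Dl x : PP n R) : PP n R := psi p (Dl ^ j * VV p F x)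

lemma Psi_succ (J : ℕ) (F Dl x : PP n R) :
    Psi p z (J + 1) F Dl x = Psi p z J F Dl x + C (z (ee p J)) * ptm p J F Dl x := by
  have hp := (Fact.out : p.Prime).pos
  unfold Psi TJ ptm
  rw [Finset.sum_range_succ, add_mul, psi_add hp, ← psi_C_mul hp]
  congr 2
  ring

end lin

section nabla
variable {n M : ℕ} {R : Type} [CommRing R]

lemma mon_mul_monomial (s s' : Expo n) (a : R) :
    monomial s a * mon s' = C a * (mon (s' + s) : PP n R) := by
  unfold mon
  rw [monomial_mul, C_mul_monomial, add_comm s s']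

lemma nab_mon {d : R →+ R} (hd : IsDer d) (c : Grid n M → R) (s : Expo n) :
    nab d c (mon s) = - ∑ β, C (d (c β)) * mon (s + gex β) := by
  unfold nab
  rw [cder_mon hd, zero_sub, Fp, cder_sum, Finset.sum_mul]
  congr 1
  apply Finset.sum_congr rfl
  intro β _
  rw [cder_monomial, mon_mul_monomial]

lemma Dop_mon (c : Grid n M → R) (i : Fin (n + 1)) (s : Expo n) :
    Dop c i (mon s) = C ((s i : ℕ) : R) * mon s
      - ∑ β : Grid n M, C (((gex β i : ℕ) : R) * c β) * mon (s + gex β) := by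
  rw [Dop_apply]
  congr 1
  · unfold mon
    rw [th_monomial, C_mul_monomial]
  · unfold Yp Fp
    rw [map_sum, Finset.sum_mul]
    apply Finset.sum_congr rfl
    intro β _
    rw [th_monomial, mon_mul_monomial]

lemma inCone_add_gex {s : Expo n} (hs : InCone M true s) (β : Grid n M) :
    InCone M true (s + gex β) := by
  rw [add_comm]
  exact (inCone_gex β).add hs

lemma InCone.lev_pos {s : Expo n} (hn : 1 ≤ n) (hs : InCone M true s) : 1 ≤ s 0 := by
  have h := hs ⟨0, hn⟩
  by_contra h0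
  have h1 : s 0 = 0 := by omega
  rw [h1, mul_zero] at h
  omega

end nabla

/-! ### the functional `C^φ` -/

section cph
variable {n M D p : ℕ} [Fact p.Prime] (f : MvPolynomial (Fin n) ℚ_[p])

lemma Cph_add (x y : PP n (LL (qG n M) ℤ_[p])) :
    Cph M D p f (x + y) = Cph M D p f x + Cph M D p f y := by
  rw [Cph_eq, Cph_eq, Cph_eq, map_add, map_add]

lemma Cph_C_mul (a : LL (qG n M) ℤ_[p]) (x : PP n (LL (qG n M) ℤ_[p])) :
    Cph M D p f (C a * x) = mL (qG n M) (zq p) a * Cph M D p f x := by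
  rw [Cph_eq, Cph_eq, map_mul, map_C, lf_C_mul]

lemma Cph_zero : Cph M D p f 0 = 0 := by
  rw [Cph_eq, map_zero, map_zero]

lemma Cph_neg (x : PP n (LL (qG n M) ℤ_[p])) : Cph M D p f (-x) = -Cph M D p f x := by
  rw [Cph_eq, Cph_eq, map_neg, map_neg]

lemma Cph_sub (x y : PP n (LL (qG n M) ℤ_[p])) :
    Cph M D p f (x - y) = Cph M D p f x - Cph M D p f y := by
  rw [sub_eq_add_neg, Cph_add, Cph_neg, ← sub_eq_add_neg]

lemma Cph_sum {ι : Type} (T : Finset ι) (x : ι → PP n (LL (qG n M) ℤ_[p])) :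
    Cph M D p f (∑ i ∈ T, x i) = ∑ i ∈ T, Cph M D p f (x i) := by
  rw [Cph_eq, map_sum, map_sum]
  apply Finset.sum_congr rfl
  intro i _
  rw [Cph_eq]

end cph

/-! ### the values of `C` -/

section cm
variable {n : ℕ} (M D : ℕ) {K : Type} [Field K] [CharZero K] (f : MvPolynomial (Fin n) K)

lemma NN.Cm (s : Expo n) : NN (Cm M D f s) := by
  intro m m' h
  unfold Helper95_CM.Cm
  by_cases hm : m < 0
  · rw [PowerSeries.coeff_coe, if_pos hm]
    rfl
  · have hm' : m' < 0 := by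
      rcases h with h | h
      · exact absurd h hm
      · exact h
    rw [PowerSeries.coeff_coe, if_neg hm, PowerSeries.coeff_mk]
    split_ifs
    · rw [PowerSeries.coeff_coe, if_pos hm']
    · rfl

lemma Cm_coeff_nat (s : Expo n) (m m' : ℕ) :
    ((Cm M D f s).coeff (m : ℤ)).coeff (m' : ℤ) = if D ∣ m then Cab M f m' (m / D) s else 0 := by
  unfold Helper95_CM.Cm
  rw [PowerSeries.coeff_coe, if_neg (by omega), PowerSeries.coeff_mk, Int.natAbs_natCast]
  split_ifs
  · rw [PowerSeries.coeff_coe, if_neg (by omega), PowerSeries.coeff_mk, Int.natAbs_natCast]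
  · rfl

lemma algebraMap_CC (q : ℕ) (r : ℚ) :
    algebraMap ℚ (CC q K) r = HahnSeries.C (algebraMap ℚ K r) := by
  have h : (algebraMap ℚ (CC q K)) = (HahnSeries.C : K →+* CC q K).comp (algebraMap ℚ K) :=
    Subsingleton.elim _ _
  rw [h, RingHom.comp_apply]

lemma Ifun_eq {R : Type} [CommRing R] [Algebra ℚ R] (x : PP n R) :
    Ifun M x = lf (fun s => algebraMap ℚ R (Iq M s)) x := rfl

lemma Red.Cm (s : Expo n) : Red (Cm M D f s) (algebraMap ℚ K (Iq M s)) := by
  refine ⟨NN.Cm M D f s, ?_⟩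
  have h := Cm_coeff_nat M D f s 0 0
  rw [Nat.cast_zero, if_pos (dvd_zero D), Nat.zero_div] at h
  rw [h]
  unfold Cab
  rw [pow_zero, pow_zero, pow_zero, mul_one, mul_one, Nat.factorial_zero, Nat.cast_one, mul_one,
    div_one, map_one, one_mul, Ifun_eq, lf_mon, algebraMap_CC]

end cm

/-! ### estimates -/

section est
variable {n M D p : ℕ} [Fact p.Prime]

/-- the bound for the levels from `l1` to `l2` -/
def BB (n M p l1 l2 X : ℕ) [Fact p.Prime] : ℝ :=
  ‖(((l1 - 1).factorial : ℕ) : ℚ_[p])‖ * (p : ℝ) ^ (2 * n * Nat.log p (M * (l2 + 2 * X)))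

lemma BB_nonneg (l1 l2 X : ℕ) : 0 ≤ BB n M p l1 l2 X := by
  unfold BB; positivity

lemma norm_fac_le {a b : ℕ} (h : a ≤ b) :
    ‖((b.factorial : ℕ) : ℚ_[p])‖ ≤ ‖((a.factorial : ℕ) : ℚ_[p])‖ := by
  obtain ⟨c, hc⟩ := Nat.factorial_dvd_factorial h
  rw [hc, Nat.cast_mul, norm_mul]
  calc _ ≤ ‖((a.factorial : ℕ) : ℚ_[p])‖ * 1 := by
        apply mul_le_mul_of_nonneg_left _ (norm_nonneg _)
        have := norm_zq (p := p) (c : ℤ_[p])
        rw [map_natCast] at this
        exact this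
    _ = _ := mul_one _

lemma bnd_Cm (hEst : EstStmt) (f' : MvPolynomial (Fin n) ℤ_[p]) (hn : 1 ≤ n) (hM : 2 ≤ M)
    (hD : 1 ≤ D) (hdeg : ∀ k, degreeOf k f' ≤ M) (l1 l2 X : ℕ) (s : Expo n)
    (hs : InCone M true s) (h1 : l1 ≤ s 0) (h2 : s 0 ≤ l2) :
    Bnd (X : ℤ) (BB n M p l1 l2 X) (Cm M D (map (zq p) f') s) := by
  refine ⟨NN.Cm M D _ s, ?_⟩
  intro m m' g hm hm'
  by_cases h3 : m < 0 ∨ m' < 0
  · rw [NN.Cm M D _ s m m' h3]
    show ‖(0 : ℚ_[p])‖ ≤ _
    rw [norm_zero]
    exact BB_nonneg _ _ _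
  · push Not at h3
    obtain ⟨a, rfl⟩ := Int.eq_ofNat_of_zero_le h3.1
    obtain ⟨b, rfl⟩ := Int.eq_ofNat_of_zero_le h3.2
    refine (hEst n M D p f' hn hM hD hdeg s hs a b g).trans ?_
    have hp1 : (1 : ℝ) ≤ p := by exact_mod_cast (Fact.out : p.Prime).one_le
    unfold BB
    apply mul_le_mul (norm_fac_le (by omega)) _ (by positivity) (norm_nonneg _)
    apply pow_le_pow_right₀ hp1
    apply Nat.mul_le_mul_left
    apply Nat.log_mono_right
    apply Nat.mul_le_mul_left
    omega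

lemma bnd_Cph (hEst : EstStmt) (f' : MvPolynomial (Fin n) ℤ_[p]) (hn : 1 ≤ n) (hM : 2 ≤ M)
    (hD : 1 ≤ D) (hdeg : ∀ k, degreeOf k f' ≤ M) (l1 l2 X : ℕ) (x : PP n (LL (qG n M) ℤ_[p]))
    (hx : IsCone M true x) (hc : ∀ s, NN (coeff s x))
    (hl : Supp (fun s => l1 ≤ s 0 ∧ s 0 ≤ l2) x) :
    Bnd (X : ℤ) (BB n M p l1 l2 X) (Cph M D p (map (zq p) f') x) := by
  unfold Cph
  apply Bnd.sum (BB_nonneg _ _ _)
  intro s hs
  rw [mem_support_iff] at hs
  apply Bnd.mul (BB_nonneg _ _ _) (hc s)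
  apply Bnd.phL (BB_nonneg _ _ _)
  exact bnd_Cm hEst f' hn hM hD hdeg l1 l2 X s (hx s hs) (hl s hs).1 (hl s hs).2

lemma ee_norm (hEE : EeStmt) (hp3 : 3 ≤ p) (j : ℕ) :
    ‖zq p (ee p j)‖ * ‖((j.factorial : ℕ) : ℚ_[p])‖ = ((p : ℝ) ^ j)⁻¹ := by
  have h := (hEE p hp3).2.1 j
  have h2 : zq p ((j.factorial : ℤ_[p]) * ee p j) = zq p ((-(p : ℤ_[p])) ^ j) := by rw [h]
  rw [map_mul, map_pow, map_neg, map_natCast, map_natCast] at h2
  rw [← norm_mul, mul_comm, h2, norm_pow, norm_neg, Padic.norm_p, inv_pow]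

lemma lim_zero (k M c : ℕ) (hp : 1 < p) :
    Filter.Tendsto (fun J : ℕ => ((p : ℝ) ^ J)⁻¹ * (p : ℝ) ^ (2 * k * Nat.log p (M * (J + c))))
      Filter.atTop (nhds 0) := by
  have hp1 : (1 : ℝ) < p := by exact_mod_cast hp
  have h1 := tendsto_pow_const_div_const_pow_of_one_lt (2 * k) hp1
  have h2 := h1.comp (Filter.tendsto_add_atTop_nat (c + 1))
  have h3 := h2.const_mul (((M + 1 : ℕ) : ℝ) ^ (2 * k) * (p : ℝ) ^ (c + 1))
  rw [mul_zero] at h3
  apply squeeze_zero _ _ h3
  · intro J; positivity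
  · intro J
    simp only [Function.comp_apply]
    have h4 : (p : ℝ) ^ (2 * k * Nat.log p (M * (J + c))) ≤
        (((M + 1) * (J + (c + 1)) : ℕ) : ℝ) ^ (2 * k) := by
      rw [mul_comm (2 * k), pow_mul]
      apply pow_le_pow_left₀ (by positivity)
      have h5 : p ^ Nat.log p ((M + 1) * (J + (c + 1))) ≤ (M + 1) * (J + (c + 1)) :=
        Nat.pow_log_le_self p (by positivity)
      have h6 : p ^ Nat.log p (M * (J + c)) ≤ p ^ Nat.log p ((M + 1) * (J + (c + 1))) := by
        apply Nat.pow_le_pow_right (by omega)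
        apply Nat.log_mono_right
        apply Nat.mul_le_mul (by omega) (by omega)
      exact_mod_cast h6.trans h5
    calc _ ≤ ((p : ℝ) ^ J)⁻¹ * (((M + 1) * (J + (c + 1)) : ℕ) : ℝ) ^ (2 * k) := by
          apply mul_le_mul_of_nonneg_left h4 (by positivity)
      _ = _ := by
          rw [Nat.cast_mul, mul_pow, pow_add (p : ℝ) J (c + 1)]
          field_simp

end est

/-! ### levels of the terms -/

section lev
variable {n M p : ℕ} [Fact p.Prime] {R : Type} [CommRing R]

lemma mm_pos {l : ℕ} (hl : 1 ≤ l) : 1 ≤ mm p l := by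
  have hp := (Fact.out : p.Prime).pos
  unfold mm
  rw [Nat.le_div_iff_mul_le hp]
  omega

lemma le_mm (l : ℕ) : l ≤ p * mm p l := by
  have hp := (Fact.out : p.Prime).pos
  unfold mm
  have h := Nat.div_add_mod (l + p - 1) p
  have h2 := Nat.mod_lt (l + p - 1) hp
  omega

lemma ptm_facts {c : Grid n M → R} {Dl : PP n R} (hDc : IsCone M false Dl) (hDl : HasLev p Dl)
    (s : Expo n) (hs : InCone M true s) (j : ℕ) :
    IsCone M true (ptm p j (Fp c) Dl (mon s)) ∧
      HasLev (j + mm p (s 0)) (ptm p j (Fp c) Dl (mon s)) := by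
  have hp := (Fact.out : p.Prime).pos
  have h1 : Dl ^ j * VV p (Fp c) (mon s) =
      C (gam p (s 0) : R) * ((Dl ^ j * Fp c ^ (p * mm p (s 0) - s 0)) * mon s) := by
    rw [VV_mon]; ring
  unfold ptm
  rw [h1, psi_C_mul hp]
  refine ⟨Supp.C_mul _ (IsCone.psi hp ?_), Supp.C_mul _ ?_⟩
  · exact IsCone.mul ((hDc.pow j).mul ((isCone_Fp c).pow _)) (Supp.monomial hs _)
  · refine Supp.psi hp (P := fun s' => s' 0 = p * (j + mm p (s 0))) ?_ ?_
    · intro s' h
      rw [Finsupp.smul_apply, smul_eq_mul] at h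
      exact Nat.eq_of_mul_eq_mul_left hp h
    · have h2 : HasLev (j * p + (p * mm p (s 0) - s 0) * 1 + s 0)
          ((Dl ^ j * Fp c ^ (p * mm p (s 0) - s 0)) * mon s) := by
        refine HasLev.mul ((hDl.pow j).mul ((hasLev_Fp c).pow _)) ?_
        exact Supp.monomial (P := fun s' => s' 0 = s 0) rfl _
      have h3 : j * p + (p * mm p (s 0) - s 0) * 1 + s 0 = p * (j + mm p (s 0)) := by
        have := le_mm (p := p) (s 0)
        rw [mul_add, mul_comm j p]
        omega
      rw [h3] at h2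
      exact h2

end lev

end H13

end Pool.Agent.Helper95_CM
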