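import Pool.Agent.Helper13_CM.ClimA

/-!
# CLIM, second part: derivatives of the coefficients, uniqueness, reduction at `t = w = 0`
Helper file for the CM project (MP_31342c_an), module CLIM.
-/

set_option autoImplicit false
set_option linter.unusedSectionVars false

noncomputable section

namespace Pool.Agent.Helper95_CM

open MvPolynomial

namespace H13

section dcgen
variable {q : ℕ} {R : Type} [CommRing R]

/-- exponent of the generic parameter -/
def ev (q : ℕ) (i : Fin q) : Gam q := toLex (Pi.single i (1 : ℤ))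

lemma tv_eq (D : ℕ) (i : Fin q) :
    tL q R ^ D * vL q R i = HahnSeries.single (D : ℤ) (HahnSeries.C (vC q R i)) := by
  unfold tL tt vL
  rw [HahnSeries.single_pow, one_pow, HahnSeries.C_apply, HahnSeries.single_mul_single, add_zero,
    one_mul, nsmul_eq_mul, mul_one]

lemma thLt_single (m : ℤ) (x : OO q R) :
    thLt q R (HahnSeries.single m x) = HahnSeries.single m ((m : OO q R) * x) := by
  classical
  ext1
  funext a
  rw [thLt_coeff, HahnSeries.coeff_single, HahnSeries.coeff_single]
  split_ifs with h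
  · rw [h]
  · rw [mul_zero]

lemma thLt_C (x : OO q R) : thLt q R (HahnSeries.C x) = 0 := by
  rw [HahnSeries.C_apply, thLt_single, Int.cast_zero, zero_mul, HahnSeries.single_eq_zero]

lemma thOw_single (m : ℤ) (x : CC q R) :
    thOw q R (HahnSeries.single m x) = HahnSeries.single m ((m : CC q R) * x) := by
  classical
  ext1
  funext a
  show (a : CC q R) * (HahnSeries.single m x).coeff a = _
  rw [HahnSeries.coeff_single, HahnSeries.coeff_single]
  split_ifs with h
  · rw [h]
  · rw [mul_zero]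

lemma thOw_C (x : CC q R) : thOw q R (HahnSeries.C x) = 0 := by
  rw [HahnSeries.C_apply, thOw_single, Int.cast_zero, zero_mul, HahnSeries.single_eq_zero]

lemma thLw_single (m : ℤ) (x : OO q R) :
    thLw q R (HahnSeries.single m x) = HahnSeries.single m (thOw q R x) := by
  classical
  ext1
  funext a
  show thOw q R ((HahnSeries.single m x).coeff a) = _
  rw [HahnSeries.coeff_single, HahnSeries.coeff_single]
  split_ifs with h
  · rfl
  · rw [map_zero]

lemma wk_eq (a : R) :
    wL q R * kL q R a = HahnSeries.C (HahnSeries.single (1 : ℤ) (HahnSeries.C a)) := by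
  unfold wL wO tt kL
  simp only [RingHom.comp_apply]
  rw [← map_mul]
  congr 1
  rw [HahnSeries.C_apply (a := (HahnSeries.C a : CC q R)),
    HahnSeries.single_mul_single, add_zero, one_mul]

variable {n M : ℕ}

lemma thLt_cgen (D : ℕ) (f : MvPolynomial (Fin n) R) (β : Grid n M) :
    thLt (qG n M) R (cgen D f β) =
      HahnSeries.single (D : ℤ) ((D : OO (qG n M) R) * HahnSeries.C (vC (qG n M) R (gi β))) := by
  unfold cgen
  have h1 : thLt (qG n M) R ((bin β : ℕ) : LL (qG n M) R) = 0 := by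
    have := thLt_C (q := qG n M) (R := R) ((bin β : ℕ) : OO (qG n M) R)
    rw [map_natCast] at this
    exact this
  rw [map_add, map_sub, h1, wk_eq, thLt_C, tv_eq, thLt_single, sub_zero, zero_add, Int.cast_natCast]

lemma thLw_cgen (D : ℕ) (f : MvPolynomial (Fin n) R) (β : Grid n M) :
    thLw (qG n M) R (cgen D f β) =
      - HahnSeries.C (HahnSeries.single (1 : ℤ) (HahnSeries.C (ftil f β))) := by
  unfold cgen
  have h1 : thLw (qG n M) R ((bin β : ℕ) : LL (qG n M) R) = 0 := by
    have h2 : ((bin β : ℕ) : LL (qG n M) R) =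
        HahnSeries.single (0 : ℤ) (HahnSeries.single (0 : ℤ) ((bin β : ℕ) : CC (qG n M) R)) := by
      rw [← HahnSeries.C_apply, ← HahnSeries.C_apply, map_natCast, map_natCast]
    rw [h2, thLw_single, thOw_single, Int.cast_zero, zero_mul, HahnSeries.single_eq_zero,
      HahnSeries.single_eq_zero]
  rw [map_add, map_sub, h1, wk_eq, tv_eq, thLw_single, thOw_C, HahnSeries.C_apply, thLw_single,
    thOw_single, Int.cast_one, one_mul, HahnSeries.single_eq_zero, add_zero, zero_sub]

lemma cf3_thLt_cgen (D : ℕ) (f : MvPolynomial (Fin n) R) (β : Grid n M) (y : LL (qG n M) R)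
    (m m' : ℤ) (g : Gam (qG n M)) :
    (((thLt (qG n M) R (cgen D f β) * y).coeff m).coeff m').coeff g =
      (D : R) * ((y.coeff (m - D)).coeff m').coeff (g - ev (qG n M) (gi β)) := by
  rw [thLt_cgen, HahnSeries.coeff_single_mul, mul_assoc, ← nsmul_eq_mul,
    HahnSeries.coeff_nsmul, Pi.smul_apply, HahnSeries.coeff_nsmul, Pi.smul_apply, nsmul_eq_mul]
  congr 1
  rw [HahnSeries.C_apply, HahnSeries.coeff_single_zero_mul]
  unfold vC
  rw [HahnSeries.coeff_single_mul, one_mul]
  rfl

lemma cf3_thLw_cgen (D : ℕ) (f : MvPolynomial (Fin n) R) (β : Grid n M) (y : LL (qG n M) R)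
    (m m' : ℤ) (g : Gam (qG n M)) :
    (((thLw (qG n M) R (cgen D f β) * y).coeff m).coeff m').coeff g =
      - (ftil f β * ((y.coeff m).coeff (m' - 1)).coeff g) := by
  rw [thLw_cgen, neg_mul, HahnSeries.coeff_neg, HahnSeries.coeff_neg, HahnSeries.coeff_neg]
  congr 1
  rw [HahnSeries.C_apply, HahnSeries.coeff_single_zero_mul, HahnSeries.coeff_single_mul,
    HahnSeries.C_apply, HahnSeries.coeff_single_zero_mul]

lemma cf3_cgen_zero {D : ℕ} (hD : 1 ≤ D) (f : MvPolynomial (Fin n) R) (β : Grid n M)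
    {y : LL (qG n M) R} (hy : NN y) (g : Gam (qG n M)) :
    (((cgen D f β * y).coeff 0).coeff 0).coeff g =
      ((bin β : ℕ) : R) * ((y.coeff 0).coeff 0).coeff g := by
  rw [(NN.cgen D f β).cf00_mul hy, (Red.cgen hD f β).2, HahnSeries.C_apply,
    HahnSeries.coeff_single_zero_mul]

end dcgen

/-! ### uniqueness -/

section uniq
variable {n M : ℕ} {K : Type} [Field K] [CharZero K]

lemma uniq_zero {D : ℕ} (hD : 1 ≤ D) (ft : Grid n M → K) (eb : Grid n M → Gam (qG n M))
    (E : Expo n → ℤ → ℤ → Gam (qG n M) → K)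
    (hneg : ∀ s, InCone M true s → ∀ m m' g, m < 0 ∨ m' < 0 → E s m m' g = 0)
    (hT : ∀ s, InCone M true s → ∀ (m m' : ℤ) g, (m : K) * E s m m' g =
      ∑ β : Grid n M, (-(D : K)) * E (s + gex β) (m - D) m' (g - eb β))
    (hW : ∀ s, InCone M true s → ∀ (m m' : ℤ) g, (m' : K) * E s m m' g =
      ∑ β : Grid n M, ft β * E (s + gex β) m (m' - 1) g)
    (h0 : ∀ s, InCone M true s → ∀ g, E s 0 0 g = 0) :
    ∀ s, InCone M true s → ∀ m m' g, E s m m' g = 0 := by
  have key : ∀ N : ℕ, ∀ s, InCone M true s → ∀ (m m' : ℤ) g, m + m' ≤ N → E s m m' g = 0 := by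
    intro N
    induction N with
    | zero =>
      intro s hs m m' g h
      by_cases h1 : m < 0 ∨ m' < 0
      · exact hneg s hs m m' g h1
      · push Not at h1
        have h2 : m = 0 := by push_cast at h; omega
        have h3 : m' = 0 := by push_cast at h; omega
        rw [h2, h3]; exact h0 s hs g
    | succ N ih =>
      intro s hs m m' g h
      by_cases h1 : m < 0 ∨ m' < 0
      · exact hneg s hs m m' g h1
      · push Not at h1
        push_cast at h
        by_cases h2 : m = 0
        · by_cases h3 : m' = 0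
          · rw [h2, h3]; exact h0 s hs g
          · have h4 := hW s hs m m' g
            rw [Finset.sum_eq_zero] at h4
            · rcases mul_eq_zero.mp h4 with h5 | h5
              · exact absurd (by exact_mod_cast h5) h3
              · exact h5
            · intro β _
              rw [ih (s + gex β) (inCone_add_gex hs β) m (m' - 1) g (by omega), mul_zero]
        · have h4 := hT s hs m m' g
          rw [Finset.sum_eq_zero] at h4
          · rcases mul_eq_zero.mp h4 with h5 | h5
            · exact absurd (by exact_mod_cast h5) h2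
            · exact h5
          · intro β _
            rw [ih (s + gex β) (inCone_add_gex hs β) (m - D) m' _ (by omega), mul_zero]
  intro s hs m m' g
  exact key (m + m').toNat s hs m m' g (Int.self_le_toNat _)

end uniq

/-! ### reduction of `Psi` -/

section redpsi
variable {n M D p : ℕ} [Fact p.Prime]

/-- the constant coefficient -/
def kap (q : ℕ) (R : Type) [CommRing R] : LL q R →+ R where
  toFun x := ((x.coeff 0).coeff 0).coeff 0
  map_zero' := rfl
  map_add' _ _ := rfl

lemma CC_of_p_mul {q : ℕ} {y : CC q ℤ_[p]} {a : ℤ_[p]}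
    (h : (p : CC q ℤ_[p]) * y = HahnSeries.C a) :
    y = HahnSeries.C (y.coeff 0) ∧ a = (p : ℤ_[p]) * y.coeff 0 := by
  classical
  have hp0 : (p : ℤ_[p]) ≠ 0 := by exact_mod_cast (Fact.out : p.Prime).ne_zero
  have h1 : ∀ g, (p : ℤ_[p]) * y.coeff g = (HahnSeries.C a : CC q ℤ_[p]).coeff g := by
    intro g
    rw [← h, ← nsmul_eq_mul, ← nsmul_eq_mul, HahnSeries.coeff_nsmul, Pi.smul_apply]
  constructor
  · ext g
    rw [HahnSeries.C_apply, HahnSeries.coeff_single]
    split_ifs with hg
    · rw [hg]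
    · have h2 := h1 g
      rw [HahnSeries.C_apply, HahnSeries.coeff_single, if_neg hg] at h2
      exact (mul_eq_zero.mp h2).resolve_left hp0
  · have h2 := h1 0
    rw [HahnSeries.C_apply, HahnSeries.coeff_single_same] at h2
    exact h2.symm

lemma expand_Fp {R : Type} [CommRing R] (c : Grid n M → R) :
    expand p (Fp c) = ∑ β : Grid n M, monomial (p • gex β) (c β) := by
  unfold Fp
  rw [map_sum]
  apply Finset.sum_congr rfl
  intro β _
  rw [expand_monomial]

lemma redP_Dl (hD : 1 ≤ D) (f' : MvPolynomial (Fin n) ℤ_[p]) (Dl : PP n (LL (qG n M) ℤ_[p]))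
    (h : IsDl p (phL (qG n M) ℤ_[p] p) (cgen (M := M) D f') Dl) :
    RedP Dl (cder (kap (qG n M) ℤ_[p]) Dl) ∧
    IsDl p (RingHom.id ℤ_[p]) (fun β : Grid n M => ((bin β : ℕ) : ℤ_[p]))
      (cder (kap (qG n M) ℤ_[p]) Dl) := by
  have hp := (Fact.out : p.Prime).pos
  have hF : RedP (Fp (cgen (M := M) D f')) (Fp (fun β : Grid n M => ((bin β : ℕ) : ℤ_[p]))) :=
    RedP.Fp fun β => Red.cgen hD f' β
  have hE : RedP (expand p (Fp (fun β : Grid n M => phL (qG n M) ℤ_[p] p (cgen D f' β))))
      (expand p (Fp (fun β : Grid n M => ((bin β : ℕ) : ℤ_[p])))) := by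
    rw [expand_Fp, expand_Fp]
    exact RedP.sum _ _ _ fun β _ => RedP.monomial _ ((Red.cgen hD f' β).phL hp)
  have h1 : C ((p : ℕ) : LL (qG n M) ℤ_[p]) * Dl = Fp (cgen (M := M) D f') ^ p -
      expand p (Fp (fun β : Grid n M => phL (qG n M) ℤ_[p] p (cgen D f' β))) := by
    unfold IsDl at h
    rw [h]; ring
  have h2 := (hF.pow p).sub hE
  rw [← h1] at h2
  have h3 : ∀ s, Red (coeff s Dl) (coeff s (cder (kap (qG n M) ℤ_[p]) Dl)) ∧
      coeff s (Fp (fun β : Grid n M => ((bin β : ℕ) : ℤ_[p])) ^ p -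
        expand p (Fp (fun β : Grid n M => ((bin β : ℕ) : ℤ_[p])))) =
        (p : ℤ_[p]) * coeff s (cder (kap (qG n M) ℤ_[p]) Dl) := by
    intro s
    have h4 := h2 s
    rw [coeff_C_mul] at h4
    have h5 : (p : CC (qG n M) ℤ_[p]) * ((coeff s Dl).coeff 0).coeff 0 = HahnSeries.C
        (coeff s (Fp (fun β : Grid n M => ((bin β : ℕ) : ℤ_[p])) ^ p -
        expand p (Fp (fun β : Grid n M => ((bin β : ℕ) : ℤ_[p]))))) := by
      rw [← h4.2, cf2_natCast_mul]
    obtain ⟨h6, h7⟩ := CC_of_p_mul h5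
    have h8 : coeff s (cder (kap (qG n M) ℤ_[p]) Dl) =
        (((coeff s Dl).coeff 0).coeff 0).coeff 0 := coeff_cder _ _ _
    refine ⟨⟨?_, ?_⟩, ?_⟩
    · intro m m' hm
      apply CC_tf (p := p)
      rw [← cf2_natCast_mul]
      exact h4.1 m m' hm
    · rw [h8]; exact h6
    · rw [h8]; exact h7
  refine ⟨fun s => (h3 s).1, ?_⟩
  unfold IsDl
  ext s
  have h9 := (h3 s).2
  rw [coeff_sub] at h9
  rw [coeff_add, coeff_C_mul, ← h9]
  simp only [RingHom.id_apply]
  ring

lemma redP_Psi (hD : 1 ≤ D) (f' : MvPolynomial (Fin n) ℤ_[p]) (Dl : PP n (LL (qG n M) ℤ_[p]))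
    (h : IsDl p (phL (qG n M) ℤ_[p] p) (cgen (M := M) D f') Dl) (J : ℕ) (s : Expo n) :
    RedP (Psi p (kL (qG n M) ℤ_[p]) J (Fp (cgen (M := M) D f')) Dl (mon s))
      (Psi p (RingHom.id ℤ_[p]) J (Fp (fun β : Grid n M => ((bin β : ℕ) : ℤ_[p])))
        (cder (kap (qG n M) ℤ_[p]) Dl) (mon s)) := by
  have hp := (Fact.out : p.Prime).pos
  have hDl := (redP_Dl hD f' Dl h).1
  have hF : RedP (Fp (cgen (M := M) D f')) (Fp (fun β : Grid n M => ((bin β : ℕ) : ℤ_[p]))) :=
    RedP.Fp fun β => Red.cgen hD f' β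
  unfold Psi TJ
  apply RedP.psi hp
  rw [VV_mon, VV_mon]
  apply RedP.mul
  · apply RedP.sum
    intro j _
    apply RedP.mul
    · exact RedP.C (Red.kL _)
    · exact hDl.pow j
  · exact ((RedP.C (Red.natCast _)).mul (RedP.mon s)).mul (hF.pow _)

lemma red_Cph (f : MvPolynomial (Fin n) ℚ_[p]) {X : PP n (LL (qG n M) ℤ_[p])}
    {A : PP n ℤ_[p]} (h : RedP X A) :
    Red (Cph M D p f X) (Ifun M (map (zq p) A) : ℚ_[p]) := by
  classical
  have hp := (Fact.out : p.Prime).pos
  rw [Cph_eq, Ifun_eq]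
  rw [lf_eq_of_subset _ _ (X.support ∪ A.support)
      ((support_map_subset _ _).trans Finset.subset_union_left),
    lf_eq_of_subset _ _ (X.support ∪ A.support)
      ((support_map_subset _ _).trans Finset.subset_union_right)]
  apply Red.sum
  intro s _
  rw [coeff_map, coeff_map]
  exact ((h s).mL (zq p)).mul ((Red.Cm M D f s).phL hp)

end redpsi

end H13

end Pool.Agent.Helper95_CM
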