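import Pool.Agent.Helper13_CM.Lf
import Pool.Agent.Helper95_CM.Base

/-!
# CPH: the twisted functional
Module CPH of the CM project (MP_31342c_an).
-/

set_option autoImplicit false
set_option linter.unusedSectionVars false

noncomputable section

namespace Pool.Agent.Helper95_CM

open MvPolynomial

namespace H13

section gen
variable {n M : ℕ} {S : Type} [CommRing S]

lemma cder_map_tw {d : S →+ S} {φ : S →+* S} {a : S} (hc : ∀ x, d (φ x) = a * φ (d x))
    (y : PP n S) : cder d (map φ y) = C a * map φ (cder d y) := by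
  ext s
  rw [coeff_cder, coeff_map, hc, coeff_C_mul, coeff_map, coeff_cder]

/-- twisted functionals are horizontal -/
lemma tw_hor {d : S →+ S} (hd : IsDer d) {φ : S →+* S} {p : ℕ}
    (hc : ∀ x, d (φ x) = (p : S) * φ (d x)) (c : Grid n M → S) (v : Expo n → S)
    (hv : ∀ s, InCone M true s → d (v s) = lf v (nab d c (mon s)))
    (x : PP n S) (hx : IsCone M true x) :
    d (lf (fun s => φ (v s)) x) =
      lf (fun s => φ (v s)) (nab d (fun β => φ (c β)) x) := by
  refine supp_induction (Q := InCone M true)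
    (P := fun x => d (lf (fun s => φ (v s)) x) =
      lf (fun s => φ (v s)) (nab d (fun β => φ (c β)) x)) ?_ ?_ ?_ x hx
  · have : nab d (fun β => φ (c β)) (0 : PP n S) = 0 := by
      unfold nab; rw [cder_zero, mul_zero, sub_zero]
    rw [this, map_zero, map_zero]
  · intro x y hx hy
    rw [nab_add, map_add, map_add, map_add, hx, hy]
  · intro s a hs
    have h1 : nab d (fun β => φ (c β)) (mon s : PP n S) =
        C (p : S) * map φ (nab d c (mon s)) := by
      unfold nab
      rw [cder_mon hd, zero_sub, zero_sub, ← map_Fp, cder_map_tw hc, map_neg, map_mul, map_mon]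
      ring
    rw [nab_C_mul hd, map_add, lf_C_mul, lf_C_mul, lf_C_mul, lf_mon, h1, lf_C_mul, lf_map,
      hd, hc, hv s hs]

/-- twisted functionals kill the operators for the twisted coefficients -/
lemma tw_kill {φ : S →+* S} (c : Grid n M → S) (v : Expo n → S) (i : Fin (n + 1))
    (hv : ∀ s, InCone M true s → lf v (Dop c i (mon s)) = 0)
    (x : PP n S) (hx : IsCone M true x) :
    lf (fun s => φ (v s)) (Dop (fun β => φ (c β)) i x) = 0 := by
  refine supp_induction (Q := InCone M true)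
    (P := fun x => lf (fun s => φ (v s)) (Dop (fun β => φ (c β)) i x) = 0) ?_ ?_ ?_ x hx
  · rw [map_zero, map_zero]
  · intro x y hx hy
    rw [map_add, map_add, hx, hy, add_zero]
  · intro s a hs
    have h1 : Dop (fun β => φ (c β)) i (C a * mon s : PP n S) =
        C a * map φ (Dop c i (mon s)) := by
      rw [map_Dop, map_mon, ← smul_eq_C_mul, map_smul, smul_eq_C_mul]
    rw [h1, lf_C_mul, lf_map, hv s hs, map_zero, mul_zero]

end gen

section nat
variable {n M : ℕ} {R S : Type} [CommRing R] [CommRing S]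

lemma hmap_single {G : Type} [AddCommGroup G] [LinearOrder G] [IsOrderedAddMonoid G]
    (j : R →+* S) (g : G) (a : R) :
    hmap j (HahnSeries.single g a) = HahnSeries.single g (j a) := by
  classical
  ext g'
  rw [hmap_coeff, HahnSeries.coeff_single, HahnSeries.coeff_single]
  split_ifs
  · rfl
  · rw [map_zero]

lemma hmap_C {G : Type} [AddCommGroup G] [LinearOrder G] [IsOrderedAddMonoid G]
    (j : R →+* S) (a : R) :
    hmap (G := G) j (HahnSeries.C a) = HahnSeries.C (j a) := hmap_single j 0 a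

lemma mL_C (q : ℕ) (j : R →+* S) (x : OO q R) :
    mL q j (HahnSeries.C x) = HahnSeries.C (mO q j x) := hmap_C _ _

lemma mO_C (q : ℕ) (j : R →+* S) (x : CC q R) :
    mO q j (HahnSeries.C x) = HahnSeries.C (mC q j x) := hmap_C _ _

lemma mC_C (q : ℕ) (j : R →+* S) (x : R) :
    mC q j (HahnSeries.C x) = HahnSeries.C (j x) := hmap_C _ _

lemma mL_kL (q : ℕ) (j : R →+* S) (a : R) : mL q j (kL q R a) = kL q S (j a) := by
  unfold kL
  simp only [RingHom.comp_apply]
  rw [mL_C, mO_C, mC_C]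

lemma mL_vL (q : ℕ) (j : R →+* S) (i : Fin q) : mL q j (vL q R i) = vL q S i := by
  unfold vL vC
  rw [mL_C, mO_C]
  congr 2
  show hmap j _ = _
  rw [hmap_single, map_one]

lemma mO_wO (q : ℕ) (j : R →+* S) : mO q j (wO q R) = wO q S := by
  unfold wO tt
  show hmap (mC q j) _ = _
  rw [hmap_single, map_one]

lemma mL_wL (q : ℕ) (j : R →+* S) : mL q j (wL q R) = wL q S := by
  unfold wL
  rw [mL_C, mO_wO]

lemma mL_tL (q : ℕ) (j : R →+* S) : mL q j (tL q R) = tL q S := by
  unfold tL tt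
  show hmap (mO q j) _ = _
  rw [hmap_single, map_one]

lemma map_ftil (j : R →+* S) (f : MvPolynomial (Fin n) R) (β : Grid n M) :
    j (ftil f β) = ftil (map j f) β := by
  classical
  unfold ftil
  rw [map_sum]
  have h : (map j f).support.sum (fun u => coeff u (map j f) *
      ∏ k, (if u k ≤ (β k : ℕ) then (Nat.choose (M - u k) ((β k : ℕ) - u k) : S) else 0)) =
      f.support.sum (fun u => coeff u (map j f) *
      ∏ k, (if u k ≤ (β k : ℕ) then (Nat.choose (M - u k) ((β k : ℕ) - u k) : S) else 0)) := by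
    apply Finset.sum_subset (support_map_subset _ _)
    intro u _ hu
    rw [notMem_support_iff.mp hu, zero_mul]
  rw [h]
  apply Finset.sum_congr rfl
  intro u _
  rw [map_mul, coeff_map, map_prod]
  congr 1
  apply Finset.prod_congr rfl
  intro k _
  split_ifs
  · rw [map_natCast]
  · rw [map_zero]

/-- naturality of the coefficients of the family -/
lemma mL_cgen (j : R →+* S) (D : ℕ) (f : MvPolynomial (Fin n) R) (β : Grid n M) :
    mL (qG n M) j (cgen D f β) = cgen D (map j f) β := by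
  unfold cgen
  rw [map_add, map_sub, map_natCast, map_mul, map_mul, map_pow, mL_wL, mL_kL, mL_tL, mL_vL,
    map_ftil]

end nat

section comm
variable (q : ℕ) {R : Type} [CommRing R] {p : ℕ}

lemma thLw_coeff (x : LL q R) (m m' : ℤ) :
    ((thLw q R x).coeff m).coeff m' = (m' : CC q R) * (x.coeff m).coeff m' := rfl

lemma thLt_coeff (x : LL q R) (m : ℤ) :
    (thLt q R x).coeff m = (m : OO q R) * x.coeff m := rfl

lemma phL_coeff (hp : 0 < p) (x : LL q R) (m : ℤ) :
    (phL q R p x).coeff ((p : ℤ) * m) = phO q R p (x.coeff m) := phT_coeff hp _ x m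

lemma phL_coeff_ne (hp : 0 < p) (x : LL q R) (m : ℤ) (h : ¬ (p : ℤ) ∣ m) :
    (phL q R p x).coeff m = 0 := phT_coeff_ne hp _ x m h

lemma phO_coeff (hp : 0 < p) (x : OO q R) (m : ℤ) :
    (phO q R p x).coeff ((p : ℤ) * m) = phC q R p (x.coeff m) := phT_coeff hp _ x m

lemma phO_coeff_ne (hp : 0 < p) (x : OO q R) (m : ℤ) (h : ¬ (p : ℤ) ∣ m) :
    (phO q R p x).coeff m = 0 := phT_coeff_ne hp _ x m h

lemma thOw_phO (hp : 0 < p) (x : OO q R) :
    thOw q R (phO q R p x) = (p : OO q R) * phO q R p (thOw q R x) := by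
  ext1
  funext m'
  show (m' : CC q R) * (phO q R p x).coeff m' = _
  rw [← nsmul_eq_mul, HahnSeries.coeff_nsmul, Pi.smul_apply, nsmul_eq_mul]
  by_cases h : (p : ℤ) ∣ m'
  · obtain ⟨a, rfl⟩ := h
    rw [phO_coeff q hp, phO_coeff q hp]
    show _ = (p : CC q R) * phC q R p ((a : CC q R) * x.coeff a)
    rw [map_mul, map_intCast]
    push_cast
    ring
  · rw [phO_coeff_ne q hp x m' h, phO_coeff_ne q hp _ m' h, mul_zero, mul_zero]

lemma thLw_phL (hp : 0 < p) (x : LL q R) :
    thLw q R (phL q R p x) = (p : LL q R) * phL q R p (thLw q R x) := by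
  ext1
  funext m
  show thOw q R ((phL q R p x).coeff m) = _
  rw [← nsmul_eq_mul, HahnSeries.coeff_nsmul, Pi.smul_apply, nsmul_eq_mul]
  by_cases h : (p : ℤ) ∣ m
  · obtain ⟨a, rfl⟩ := h
    rw [phL_coeff q hp, phL_coeff q hp, thOw_phO q hp]
    rfl
  · rw [phL_coeff_ne q hp x m h, phL_coeff_ne q hp _ m h, map_zero, mul_zero]

end comm

section main
variable {n M D p : ℕ} [Fact p.Prime]

/-- `C^φ` through `lf` -/
lemma Cph_eq (f : MvPolynomial (Fin n) ℚ_[p]) (x : PP n (LL (qG n M) ℤ_[p])) :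
    Cph M D p f x = lf (fun s => phL (qG n M) ℚ_[p] p (Cm M D f s))
      (map (mL (qG n M) (zq p)) x) := by
  rw [lf_map_sum]
  rfl

lemma Cfun_eq {K : Type} [Field K] [CharZero K] (f : MvPolynomial (Fin n) K)
    (x : PP n (LL (qG n M) K)) : Cfun M D f x = lf (Cm M D f) x := rfl

lemma nab_map {R S : Type} [CommRing R] [CommRing S] (g : R →+* S) (d : R →+ R) (d' : S →+ S)
    (hg : ∀ x, g (d x) = d' (g x)) (c : Grid n M → R) (x : PP n R) :
    map g (nab d c x) = nab d' (fun β => g (c β)) (map g x) := by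
  have h : ∀ y : PP n R, map g (cder d y) = cder d' (map g y) := by
    intro y
    ext s
    rw [coeff_map, coeff_cder, coeff_cder, coeff_map, hg]
  unfold nab
  rw [map_sub, map_mul, h, h, map_Fp]

end main

end H13

open H13 in
/-- CPH -/
theorem cph (h1 : CfnStmt) (h2 : OpcStmt) : CphStmt := by
  intro n M D p _ f' hn hM hD hdeg
  have hp : 0 < p := (Fact.out : p.Prime).pos
  have hG : GData n M D ℚ_[p] (map (zq p) f') := by
    refine ⟨hn, hM, hD, fun k => ?_⟩
    rw [degreeOf_eq_sup]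
    refine (Finset.sup_mono (support_map_subset _ _)).trans ?_
    rw [← degreeOf_eq_sup]
    exact hdeg k
  obtain ⟨c1, c2, c3, -, -⟩ := h1 n M D ℚ_[p] (map (zq p) f') hG
  obtain ⟨o1, o2, o3, -, -, -, -, -, o9⟩ := h2 (qG n M) ℤ_[p] ℚ_[p] (zq p) p hp
  obtain ⟨-, -, -, -, -, -, q7, -, q9⟩ := h2 (qG n M) ℚ_[p] ℚ_[p] (RingHom.id _) p hp
  have hcc : (fun β : Grid n M => mL (qG n M) (zq p) (phL (qG n M) ℤ_[p] p (cgen D f' β))) =
      fun β => phL (qG n M) ℚ_[p] p (cgen D (map (zq p) f') β) := by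
    funext β
    rw [o1, mL_cgen]
  have hcone : ∀ s : Expo n, InCone M true s → IsCone M true (mon s : PP n (LL (qG n M) ℚ_[p])) :=
    fun s hs => Supp.monomial hs _
  refine ⟨?_, ?_, ?_⟩
  · intro i σ hσ
    rw [Cph_eq, map_Dop, hcc]
    exact tw_kill (cgen D (map (zq p) f')) (Cm M D (map (zq p) f')) i
      (fun s hs => c1 i (mon s) (hcone s hs)) _ (hσ.map _)
  · intro x hx
    rw [Cph_eq, Cph_eq, nab_map _ _ (thLt (qG n M) ℚ_[p]) o2, hcc]
    refine tw_hor q9.1 q7 (cgen D (map (zq p) f')) (Cm M D (map (zq p) f')) ?_ _ (hx.map _)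
    intro s hs
    have := c2 (mon s) (hcone s hs)
    rw [Cfun_eq, lf_mon] at this
    exact this
  · intro x hx
    rw [Cph_eq, Cph_eq, nab_map _ _ (thLw (qG n M) ℚ_[p]) o3, hcc]
    refine tw_hor q9.2.1 (thLw_phL (qG n M) hp) (cgen D (map (zq p) f'))
      (Cm M D (map (zq p) f')) ?_ _ (hx.map _)
    intro s hs
    have := c3 (mon s) (hcone s hs)
    rw [Cfun_eq, lf_mon] at this
    exact this

end Pool.Agent.Helper95_CM
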