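import Pool.Agent.Helper95_CM.StG

/-!
# CPS: the functional on low order coefficients
Module CPS of the CM project (MP_31342c_an).
-/

set_option autoImplicit false
set_option linter.unusedSectionVars false

noncomputable section

namespace Pool.Agent.Helper95_CM

open MvPolynomial

/-- CPS -/
theorem cps (h1 : ClimStmt) (h2 : TailStmt) : CpsStmt := by
  intro n M D N X
  obtain ⟨p0, hp0⟩ := h2 n M N X
  refine ⟨max p0 (max (M + 1) 3), ?_⟩
  intro p _ f' Dl hp hn hM hD hdeg hDl
  have hp1 : p0 ≤ p := (le_max_left _ _).trans hp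
  have hp2 : M + 1 ≤ p := (le_max_left _ _).trans ((le_max_right _ _).trans hp)
  have hp3 : 3 ≤ p := (le_max_right _ _).trans ((le_max_right _ _).trans hp)
  obtain ⟨lam, hlam, hlim⟩ := h1 n M D p f' Dl hn hM hD hdeg (by omega) hp3 hDl
  refine ⟨lam, hlam, ?_⟩
  intro s hs hsl m m' g hm hm'
  have h3 := hlim s hs m m' g
  have h4 := hp0 p D f' Dl hp1 hn hM hD hdeg hDl s hs hsl
  rw [HahnSeries.coeff_sub, HahnSeries.coeff_sub, HahnSeries.coeff_sub, norm_sub_rev]
  refine le_of_tendsto ((h3.sub_const _).norm) ?_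
  rw [Filter.eventually_atTop]
  refine ⟨2 * N, fun J hJ => ?_⟩
  have h5 := h4 J hJ m m' g hm hm'
  rw [HahnSeries.coeff_sub, HahnSeries.coeff_sub, HahnSeries.coeff_sub] at h5
  exact h5

end Pool.Agent.Helper95_CM
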