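import Pool.Agent.Helper13_CM.ClimA
import Pool.Agent.Helper95_CM.StE

/-!
# CVF: the row vector of the functional on the lattice
Module CVF of the CM project (MP_31342c_an).
-/

set_option autoImplicit false
set_option linter.unusedSectionVars false

noncomputable section

namespace Pool.Agent.Helper95_CM

open MvPolynomial

namespace H13

section spr
variable {q : ℕ} {K : Type} [Field K]

/-- series all of whose coefficients are spreadable -/
def SCr (S : Subfield (CC q K)) : Subring (LL q K) where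
  carrier := {x | ∀ m m' : ℤ, (x.coeff m).coeff m' ∈ S}
  mul_mem' := by
    intro x y hx hy m m'
    have h : ((x * y).coeff m).coeff m' ∈ S.toSubring.toAddSubgroup := by
      apply cf2_mul_mem
      intro a b a' b' _ _
      exact S.mul_mem (hx a a') (hy b b')
    exact h
  one_mem' := by
    intro m m'
    rw [HahnSeries.coeff_one]
    split_ifs
    · rw [HahnSeries.coeff_one]
      split_ifs
      · exact S.one_mem
      · exact S.zero_mem
    · exact S.zero_mem
  add_mem' := by
    intro x y hx hy m m'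
    rw [HahnSeries.coeff_add, HahnSeries.coeff_add]
    exact S.add_mem (hx m m') (hy m m')
  zero_mem' := by
    intro m m'
    exact S.zero_mem
  neg_mem' := by
    intro x hx m m'
    rw [HahnSeries.coeff_neg, HahnSeries.coeff_neg]
    exact S.neg_mem (hx m m')

lemma mem_SCr (S : Subfield (CC q K)) (x : LL q K) :
    x ∈ SCr S ↔ ∀ m m' : ℤ, (x.coeff m).coeff m' ∈ S := Iff.rfl

lemma SCr_single (S : Subfield (CC q K)) (m m' : ℤ) (x : CC q K) (hx : x ∈ S) :
    (HahnSeries.single m (HahnSeries.single m' x) : LL q K) ∈ SCr S := by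
  classical
  intro a a'
  rw [HahnSeries.coeff_single]
  split_ifs
  · rw [HahnSeries.coeff_single]
    split_ifs
    · exact hx
    · exact S.zero_mem
  · exact S.zero_mem

/-- polynomials with coefficients in a subring -/
lemma coeff_mem_of_map {n : ℕ} {R : Type} [CommRing R] (S : Subring R) {x : PP n R}
    (h : ∃ y : PP n S, map S.subtype y = x) (s : Expo n) : coeff s x ∈ S := by
  obtain ⟨y, rfl⟩ := h
  rw [coeff_map]
  exact (coeff s y).2

variable {n M : ℕ}

lemma Fp_mem {R : Type} [CommRing R] (S : Subring R) (c : Grid n M → R) (hc : ∀ β, c β ∈ S) :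
    ∃ y : PP n S, map S.subtype y = Fp c := by
  refine ⟨Fp (fun β => (⟨c β, hc β⟩ : S)), ?_⟩
  rw [map_Fp]
  rfl

lemma Jac_mem {R : Type} [CommRing R] (S : Subring R) (c : Grid n M → R) (hc : ∀ β, c β ∈ S) :
    ∃ y : PP n S, map S.subtype y = Jac c := by
  refine ⟨Jac (fun β => (⟨c β, hc β⟩ : S)), ?_⟩
  rw [map_Jac]
  rfl

lemma mon_mem {R : Type} [CommRing R] (S : Subring R) (s : Expo n) :
    ∃ y : PP n S, map S.subtype y = mon s := ⟨mon s, map_mon _ _⟩

end spr

section cm
variable {n M D : ℕ} {K : Type} [Field K] [NumberField K]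

lemma Cm_mem (S : Subfield (CC (qG n M) K)) (hS : ∀ (a : K) (g : Gam (qG n M)),
    (HahnSeries.single g a : CC (qG n M) K) ∈ S) (f : MvPolynomial (Fin n) K) (s : Expo n) :
    Cm M D f s ∈ SCr S := by
  have hC : ∀ a : K, (HahnSeries.C a : CC (qG n M) K) ∈ S := fun a => hS a 0
  intro m m'
  by_cases h : m < 0 ∨ m' < 0
  · rw [NN.Cm M D f s m m' h]
    exact S.zero_mem
  · push Not at h
    obtain ⟨a, rfl⟩ := Int.eq_ofNat_of_zero_le h.1
    obtain ⟨b, rfl⟩ := Int.eq_ofNat_of_zero_le h.2
    rw [Cm_coeff_nat]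
    split_ifs
    · unfold Cab
      apply S.mul_mem (hC _)
      rw [Ifun_eq, lf_def]
      apply S.sum_mem
      intro s' _
      apply S.mul_mem
      · apply coeff_mem_of_map S.toSubring
        obtain ⟨y1, h1⟩ := mon_mem S.toSubring s
        obtain ⟨y2, h2⟩ := Fp_mem S.toSubring
          (fun β : Grid n M => (HahnSeries.C (ftil f β) : CC (qG n M) K)) (fun β => hC _)
        obtain ⟨y3, h3⟩ := Fp_mem S.toSubring
          (fun β : Grid n M => (vC (qG n M) K (gi β) : CC (qG n M) K)) (fun β => hS _ _)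
        refine ⟨y1 * y2 ^ b * y3 ^ (a / D), ?_⟩
        rw [map_mul, map_mul, map_pow, map_pow, h1, h2, h3]
      · rw [algebraMap_CC]
        exact hC _
    · exact S.zero_mem

lemma cgen_mem (S : Subfield (CC (qG n M) K)) (hS : ∀ (a : K) (g : Gam (qG n M)),
    (HahnSeries.single g a : CC (qG n M) K) ∈ S) (f : MvPolynomial (Fin n) K) (β : Grid n M) :
    cgen D f β ∈ SCr S := by
  unfold cgen
  apply Subring.add_mem
  · apply Subring.sub_mem
    · exact natCast_mem (SCr S) _
    · apply Subring.mul_mem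
      · exact SCr_single S 0 1 1 S.one_mem
      · exact SCr_single S 0 0 _ (hS _ 0)
  · apply Subring.mul_mem
    · apply Subring.pow_mem
      exact SCr_single S 1 0 1 S.one_mem
    · exact SCr_single S 0 0 _ (hS _ _)

end cm

lemma hor_alg {I S : Type} [Fintype I] [CommRing S] {d : S →+ S} (hd : IsDer d) (v : I → S)
    (R U Rv : I → I → S) (h1 : ∀ s, d (v s) = ∑ s', R s' s * v s')
    (h2 : ∀ s j, d (U s j) + ∑ s', R s s' * U s' j = ∑ i, U s i * Rv i j) (j : I) :
    d (∑ s, v s * U s j) = ∑ i, (∑ s, v s * U s i) * Rv i j := by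
  have e1 : ∑ i, (∑ s, v s * U s i) * Rv i j = ∑ s, v s * (∑ i, U s i * Rv i j) := by
    simp only [Finset.sum_mul, Finset.mul_sum]
    rw [Finset.sum_comm]
    apply Finset.sum_congr rfl
    intro s _
    apply Finset.sum_congr rfl
    intro i _
    rw [mul_assoc]
  have e2 : ∑ s, v s * (∑ i, U s i * Rv i j) =
      ∑ s, v s * d (U s j) + ∑ s, ∑ s', v s * (R s s' * U s' j) := by
    rw [← Finset.sum_add_distrib]
    apply Finset.sum_congr rfl
    intro s _
    rw [← h2 s j, mul_add, Finset.mul_sum]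
  have e3 : d (∑ s, v s * U s j) =
      ∑ s, ∑ s', R s' s * v s' * U s j + ∑ s, v s * d (U s j) := by
    rw [map_sum, ← Finset.sum_add_distrib]
    apply Finset.sum_congr rfl
    intro s _
    rw [hd, h1 s, Finset.sum_mul]
  rw [e1, e2, e3, add_comm]
  congr 1
  rw [Finset.sum_comm]
  apply Finset.sum_congr rfl
  intro s _
  apply Finset.sum_congr rfl
  intro s' _
  ring

lemma charZero_OO (q : ℕ) (K : Type) [Field K] [CharZero K] : CharZero (OO q K) := by
  apply charZero_of_injective_ringHom (f := kO q K)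
  intro a b h
  exact HahnSeries.C_injective (HahnSeries.C_injective h)

end H13

open H13 in
/-- CVF -/
theorem cvf (hOPC : OpcStmt) (hCGU : CguStmt) (hHB2 : Hb2Stmt) (hCFN : CfnStmt) (hHPOL : HpolStmt)
    (hSPC : SpcStmt) (hSPO : SpoStmt) (hJC : JConeStmt) : CvfStmt := by
  classical
  intro n M D A K _ _ f U Ui Rv hG hU
  obtain ⟨c1, c2, -, -, -⟩ := hCFN n M D K f hG
  have hdt := (hCGU n M D true A K f hG).1
  have hun : IsUnit (dt A (cgen D f)) := isUnit_iff_ne_zero.mpr hdt
  have hM1 : 1 ≤ M := le_trans (by norm_num) hG.hM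
  have hbb : ∀ s : A.Bas, IsCone M true (bb A (cgen D f) s) := by
    intro s
    unfold bb bbo
    split_ifs
    · have h := (hJC n M (LL (qG n M) K) (fun i => th i (Fp (cgen (M := M) D f))) hG.hn hM1
        (fun i => ⟨(isCone_Fp _).th i, (hasLev_Fp _).th i⟩)).1
      exact h
    · exact Supp.monomial (A.cone s.1 s.2) _
  -- the functional through the coordinates
  have hexp : ∀ x : PP n (LL (qG n M) K), IsCone M true x → Cfun M D f x =
      ∑ s : A.Bas, crd A (cgen D f) x s * Cfun M D f (bb A (cgen D f) s) := by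
    intro x hx
    obtain ⟨σ, h1, -, h2, -⟩ := hHB2 n M true A _ (cgen D f) hG.hn hM1 hun
      (x.support.sup fun s => s 0) x hx
      (fun s hs => Finset.le_sup (f := fun s : Expo n => s 0) (mem_support_iff.mpr hs))
    have h3 := congrArg (lf (Cm M D f)) h2
    have h4 : ∑ i, lf (Cm M D f) (Dop (cgen D f) i (σ i)) = 0 :=
      Finset.sum_eq_zero (fun i _ => c1 i (σ i) (h1 i))
    rw [map_add, map_sum, map_sum, h4, add_zero] at h3
    rw [Cfun_eq, h3]
    apply Finset.sum_congr rfl
    intro s _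
    rw [lf_C_mul, Cfun_eq]
  have hUU : ∀ s s' : A.Bas, ∑ j, U s j * Ui j s' = if s = s' then 1 else 0 := by
    intro s s'
    have h := congrFun (congrFun hU.gau.inv s) s'
    rw [Matrix.mul_apply, Matrix.one_apply] at h
    exact h
  have hhor : ∀ j, thLt (qG n M) K (Cv A D f U j) = ∑ i, Cv A D f U i * Rv i j := by
    intro j
    have hd : IsDer (R := LL (qG n M) K) (thLt (qG n M) K) :=
      (hOPC (qG n M) K K (RingHom.id K) 1 one_pos).2.2.2.2.2.2.2.2.1
    have h1 : ∀ s : A.Bas, thLt (qG n M) K (Cfun M D f (bb A (cgen D f) s)) =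
        ∑ s' : A.Bas, Rm A (thLt (qG n M) K) (cgen D f) s' s *
          Cfun M D f (bb A (cgen D f) s') := by
      intro s
      rw [c2 _ (hbb s), hexp _ ((hbb s).nab _ _)]
      rfl
    exact hor_alg hd (fun s : A.Bas => Cfun M D f (bb A (cgen D f) s))
      (Rm A (thLt (qG n M) K) (cgen D f)) U Rv h1 (fun s j => by
        have h := congrFun (congrFun hU.gau.eq s) j
        rw [Matrix.add_apply, Matrix.map_apply, Matrix.mul_apply, Matrix.mul_apply] at h
        exact h) j
  refine ⟨hhor, ?_, ?_, ?_⟩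
  · have _ := charZero_OO (qG n M) K
    have hpol := (hHPOL (OO (qG n M) K) A.Bas Rv hU.pf hU.nil).2.1
    refine hpol (fun j => Cv A D f U j) ?_
    intro j m _
    have h := hhor j
    have h2 : tht (OO (qG n M) K) (Cv A D f U j) - ∑ i, Cv A D f U i * Rv i j = 0 :=
      sub_eq_zero.mpr h
    rw [h2]
    rfl
  · intro x hx
    rw [hexp x hx]
    unfold Cv
    simp only [Finset.sum_mul]
    rw [Finset.sum_comm]
    apply Finset.sum_congr rfl
    intro s _
    have h1 : ∀ j, Cfun M D f (bb A (cgen D f) s) * U s j *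
        (Ui.mulVec (crd A (cgen D f) x)) j =
        Cfun M D f (bb A (cgen D f) s) * (U s j * (Ui.mulVec (crd A (cgen D f) x)) j) :=
      fun j => mul_assoc _ _ _
    simp only [h1]
    rw [← Finset.mul_sum, mul_comm]
    congr 1
    have h2 : ∑ j, U s j * (Ui.mulVec (crd A (cgen D f) x)) j =
        (U.mulVec (Ui.mulVec (crd A (cgen D f) x))) s := rfl
    rw [h2, Matrix.mulVec_mulVec, hU.gau.inv, Matrix.one_mulVec]
  · obtain ⟨S, hS⟩ := (hSPC (qG n M) K).1
    have hS2 : ∀ (a : K) (g : Gam (qG n M)), (HahnSeries.single g a : CC (qG n M) K) ∈ S :=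
      fun a g => (hS _).mpr ((hSPC (qG n M) K).2.1 a g)
    have h1 : ∀ s j : A.Bas, U s j ∈ SCr S := by
      intro s j m m'
      exact (hS _).mpr ((hSPO (qG n M) K _ ((hU.gU s j).2 m)).2.1 m')
    have h2 : ∀ s : A.Bas, Cfun M D f (bb A (cgen D f) s) ∈ SCr S := by
      intro s
      rw [Cfun_eq, lf_def]
      apply Subring.sum_mem
      intro s' _
      apply Subring.mul_mem _ _ (Cm_mem S hS2 f s')
      apply coeff_mem_of_map (SCr S)
      unfold bb bbo
      split_ifs
      · exact Jac_mem (SCr S) _ (fun β => cgen_mem S hS2 f β)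
      · exact mon_mem (SCr S) _
    intro j m m'
    rw [← hS]
    have h3 : Cv A D f U j ∈ SCr S := by
      unfold Cv
      apply Subring.sum_mem
      intro s _
      exact Subring.mul_mem _ (h2 s) (h1 s j)
    exact h3 m m'

end Pool.Agent.Helper95_CM
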