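import Pool.Agent.Helper13_CM.IndA

/-!
# IND: independence of Frobenius pull backs
Module IND of the CM project (MP_31342c_an).
-/

set_option autoImplicit false
set_option linter.unusedSectionVars false

noncomputable section

namespace Pool.Agent.Helper95_CM

open MvPolynomial

namespace H13

/-! ### products of independent families -/

section prod
variable {q : ℕ} {K : Type} [Field K]

lemma smul_OO (S : Subfield (CC q K)) (s : S) (x : OO q K) :
    s • x = HahnSeries.C (s : CC q K) * x := by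
  ext1
  funext m
  rw [HahnSeries.C_apply, HahnSeries.coeff_single_zero_mul]
  rfl

lemma C_mem_kF (x : CC q K) (hx : SprC x) : (HahnSeries.C x : OO q K) ∈ kF q K :=
  Subfield.subset_closure (Or.inl ⟨x, hx, rfl⟩)

lemma wO_mem_kF : wO q K ∈ kF q K := Subfield.subset_closure (Or.inr rfl)

lemma smul_kF (s : kF q K) (x : OO q K) : s • x = (s : OO q K) * x := rfl

lemma prod_indep (S : Subfield (CC q K)) (hS : ∀ x, x ∈ S ↔ SprC x) {L J : Type} [Fintype L]
    [Fintype J] (τ : L → OO q K) (α : J → OO q K) (hτ : ∀ l, τ l ∈ kF q K)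
    (h1 : LinearIndependent S τ) (h2 : LinearIndependent (kF q K) α) :
    LinearIndependent S (fun i : L × J => τ i.1 * α i.2) := by
  rw [Fintype.linearIndependent_iff] at h1 h2 ⊢
  intro g hg
  have hmem : ∀ j, (∑ l, g (l, j) • τ l) ∈ kF q K := by
    intro j
    apply Subfield.sum_mem
    intro l _
    rw [smul_OO]
    exact (kF q K).mul_mem (C_mem_kF _ ((hS _).mp (g (l, j)).2)) (hτ l)
  have h3 := h2 (fun j => ⟨∑ l, g (l, j) • τ l, hmem j⟩) (by
    rw [← hg, Fintype.sum_prod_type_right]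
    apply Finset.sum_congr rfl
    intro j _
    rw [smul_kF, Finset.sum_mul]
    apply Finset.sum_congr rfl
    intro l _
    rw [smul_OO, smul_OO, mul_assoc])
  rintro ⟨l, j⟩
  have h4 : ∑ l, g (l, j) • τ l = 0 := congrArg Subtype.val (h3 j)
  exact h1 (fun l => g (l, j)) h4 l

end prod

/-! ### integral elements -/

section integral
variable {q p : ℕ} [Fact p.Prime]

lemma zq_inj : Function.Injective (zq p) := by
  intro x y h
  exact Subtype.ext h

lemma mC_zq_inj : Function.Injective (mC q (zq p)) := hmap_inj _ zq_inj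

/-- the coefficient as an additive map -/
def cfh {q : ℕ} {R : Type} [CommRing R] (m : ℤ) : OO q R →+ CC q R :=
  ⟨⟨fun z => z.coeff m, rfl⟩, fun _ _ => rfl⟩

lemma cfh_apply {q : ℕ} {R : Type} [CommRing R] (m : ℤ) (x : OO q R) :
    cfh m x = x.coeff m := rfl

lemma mO_zq_inj : Function.Injective (mO q (zq p)) := hmap_inj _ mC_zq_inj

lemma dvd_of_norm (hLFT : LftStmt) (N : ℕ) (y : CC q ℤ_[p])
    (h : ∀ γ : Gam q, ‖(mC q (zq p) y).coeff γ‖ ≤ ((p : ℝ) ^ N)⁻¹) :
    (p : CC q ℤ_[p]) ^ N ∣ y := by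
  rw [(hLFT q p).2.2.2.2 N y]
  intro g
  rw [← Ideal.mem_span_singleton, ← PadicInt.norm_le_pow_iff_mem_span_pow, PadicInt.norm_def,
    zpow_neg, zpow_natCast]
  exact h g

end integral

end H13

open H13 in
/-- IND -/
theorem ind (hSPC : SpcStmt) (hSPO : SpoStmt) (hLFT : LftStmt) : IndStmt := by
  classical
  intro q K _ _ J _ α hα hαi ν d κ hκ
  obtain ⟨⟨S, hS⟩, -, hS3⟩ := hSPC q K
  -- the spanning family
  obtain ⟨T, hTdef⟩ : ∃ T : Fin ν × Fin (d + 1) → OO q K,
      ∀ e, T e = wO q K ^ (e.2 : ℕ) * κ e.1 := ⟨_, fun _ => rfl⟩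
  have hTk : ∀ e, T e ∈ kF q K := by
    intro e
    rw [hTdef]
    exact (kF q K).mul_mem ((kF q K).pow_mem wO_mem_kF _) (hκ e.1)
  obtain ⟨L, a, ha, hspan, hTi⟩ := exists_linearIndependent' S T
  have _ : Fintype L := Fintype.ofInjective a ha
  have hr : ∀ e : Fin ν × Fin (d + 1), ∃ r : L → S, ∑ l, r l • T (a l) = T e := by
    intro e
    have h1 : T e ∈ Submodule.span S (Set.range (T ∘ a)) := by
      rw [hspan]
      exact Submodule.subset_span ⟨e, rfl⟩
    exact (Submodule.mem_span_range_iff_exists_fun S).mp h1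
  choose r hr using hr
  -- the products
  obtain ⟨v, hvdef⟩ : ∃ v : L × J → OO q K, ∀ i, v i = T (a i.1) * α i.2 := ⟨_, fun _ => rfl⟩
  have hvi : LinearIndependent S v := by
    have h1 := prod_indep S hS (fun l => T (a l)) α (fun l => hTk (a l)) hTi hαi
    have h2 : v = fun i : L × J => T (a i.1) * α i.2 := funext hvdef
    rw [h2]
    exact h1
  have hvS : ∀ i m, (v i).coeff m ∈ S := by
    intro i m
    have h1 : (v i).coeff m ∈ S.toSubring.toAddSubgroup := by
      rw [hvdef]
      apply coeff_mul_mem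
      intro b c _
      exact S.mul_mem ((hS _).mpr ((hSPO q K _ (hTk (a i.1))).2.1 b)) ((hS _).mpr (hα i.2 c))
    exact h1
  have hwi : LinearIndependent S (fun (i : L × J) (m : ℤ) => (⟨(v i).coeff m, hvS i m⟩ : S)) := by
    rw [Fintype.linearIndependent_iff] at hvi ⊢
    intro g hg
    apply hvi g
    ext1
    funext m
    have h1 := congrArg Subtype.val (congrFun hg m)
    rw [Finset.sum_apply] at h1
    have h2 : (∑ i, g i • v i).coeff m = ∑ i, (g i : CC q K) * (v i).coeff m := by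
      have h3 : ∀ (T' : Finset (L × J)), (∑ i ∈ T', g i • v i).coeff m =
          ∑ i ∈ T', (g i : CC q K) * (v i).coeff m := by
        intro T'
        induction T' using Finset.induction_on with
        | empty => rw [Finset.sum_empty, Finset.sum_empty]; rfl
        | insert b T' hb ih =>
          rw [Finset.sum_insert hb, Finset.sum_insert hb, HahnSeries.coeff_add, ih]
          rfl
      exact h3 _
    rw [h2]
    have h4 : ((∑ c : L × J, (g c • fun (m : ℤ) => (⟨(v c).coeff m, hvS c m⟩ : S)) m : S) :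
        CC q K) = ∑ i, (g i : CC q K) * (v i).coeff m := by
      rw [AddSubmonoidClass.coe_finsetSum]
      rfl
    rw [← h4]
    exact h1
  obtain ⟨μ, hμ⟩ := exists_minor _ hwi
  have hdetS : (Matrix.of fun i i' => (v i).coeff (μ i') : Matrix (L × J) (L × J) (CC q K)).det
      = ((Matrix.of fun i i' => (⟨(v i).coeff (μ i'), hvS i (μ i')⟩ : S)).det : S) := by
    have h1 := RingHom.map_det S.subtype
      (Matrix.of fun i i' => (⟨(v i).coeff (μ i'), hvS i (μ i')⟩ : S))
    exact h1.symm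
  have hdet : (Matrix.of fun i i' => (v i).coeff (μ i') :
      Matrix (L × J) (L × J) (CC q K)).det ≠ 0 := by
    rw [hdetS]
    intro h
    exact hμ (Subtype.ext h)
  have hdetSpr : SprC (Matrix.of fun i i' => (v i).coeff (μ i') :
      Matrix (L × J) (L × J) (CC q K)).det := by
    rw [← hS, hdetS]
    exact Subtype.mem _
  obtain ⟨p1, hp1⟩ := hS3 _ hdetSpr hdet
  -- lifts
  obtain ⟨p2, hp2⟩ := spr_fin (fun i : (L × J) × (L × J) => (v i.1).coeff (μ i.2))
    (fun i => (hS _).mp (hvS _ _))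
  obtain ⟨p3, hp3⟩ := spr_fin (fun i : (Fin ν × Fin (d + 1)) × L => ((r i.1 i.2 : S) : CC q K))
    (fun i => (hS _).mp (Subtype.mem _))
  -- bounds
  have hB : ∃ B : ℕ, ∀ e, OrdGe (-(B : ℤ)) (κ e) := by
    choose b hb using fun e => ord_lb (κ e)
    refine ⟨Finset.univ.sup b, fun e m hm => hb e m ?_⟩
    have : b e ≤ Finset.univ.sup b := Finset.le_sup (Finset.mem_univ e)
    omega
  obtain ⟨B, hB⟩ := hB
  have hBα : ∃ B : ℕ, ∀ j, OrdGe (-(B : ℤ)) (α j) := by
    choose b hb using fun j => ord_lb (α j)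
    refine ⟨Finset.univ.sup b, fun e m hm => hb e m ?_⟩
    have : b e ≤ Finset.univ.sup b := Finset.le_sup (Finset.mem_univ e)
    omega
  obtain ⟨Bα, hBα⟩ := hBα
  set Cc : ℕ := max d B with hCc
  obtain ⟨Y, hY⟩ : ∃ Y : ℕ, ∀ i, μ i ≤ Y := by
    refine ⟨Finset.univ.sup fun i => (μ i).toNat, fun i => ?_⟩
    have h1 : (μ i).toNat ≤ Finset.univ.sup fun i => (μ i).toNat :=
      Finset.le_sup (f := fun i => (μ i).toNat) (Finset.mem_univ i)
    have := Int.self_le_toNat (μ i)
    omega
  obtain ⟨p4, hp4⟩ := spr_fin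
    (fun i : J × (Finset.Icc (-(Bα : ℤ)) ((Y : ℤ) + Cc)) => (α i.1).coeff i.2)
    (fun i => hα _ _)
  refine ⟨Y + 1, max (max p1 p2) (max p3 p4), ?_⟩
  intro p _ hp ι κ' hκ' N h g hord hdeg hcong hnorm
  have hpos : 0 < p := (Fact.out : p.Prime).pos
  have hpp : (0 : ℤ) < p := by exact_mod_cast hpos
  have hpp1 : p1 ≤ p := (le_max_left _ _).trans ((le_max_left _ _).trans hp)
  have hpp2 : p2 ≤ p := (le_max_right _ _).trans ((le_max_left _ _).trans hp)
  have hpp3 : p3 ≤ p := (le_max_left _ _).trans ((le_max_right _ _).trans hp)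
  have hpp4 : p4 ≤ p := (le_max_right _ _).trans ((le_max_right _ _).trans hp)
  obtain ⟨V, hV⟩ := hp2 p hpp2 ι
  obtain ⟨r', hr'⟩ := hp3 p hpp3 ι
  obtain ⟨α', hα'⟩ := hp4 p hpp4 ι
  -- Frobenius on the generic parameters only
  have hphO : ∀ {R : Type} [CommRing R] (x : OO q R),
      phO q R p x = hphi (CC q R) p (hmap (phC q R p) x) := fun x => rfl
  have hphC : ∀ x : CC q ℤ_[p], mC q (zq p) (phC q ℤ_[p] p x) = phC q ℚ_[p] p (mC q (zq p) x) :=
    fun x => hmap_hphi hpos _ x
  -- the lifts of the spanning family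
  obtain ⟨T', hT'def⟩ : ∃ T' : Fin ν × Fin (d + 1) → OO q ℤ_[p],
      ∀ e, T' e = wO q ℤ_[p] ^ (e.2 : ℕ) * κ' e.1 := ⟨_, fun _ => rfl⟩
  have hT' : ∀ e, mO q ι (T e) = mO q (zq p) (T' e) := by
    intro e
    rw [hTdef, hT'def, map_mul, map_mul, map_pow, map_pow, mO_wO, mO_wO, hκ']
  have hTr : ∀ e, T' e = ∑ l, HahnSeries.C (r' (e, l)) * T' (a l) := by
    intro e
    apply mO_zq_inj
    rw [← hT', ← hr e, map_sum, map_sum]
    apply Finset.sum_congr rfl
    intro l _
    rw [smul_OO, map_mul, map_mul, mO_C, mO_C, hT', hr' (e, l)]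
  -- the unknowns
  obtain ⟨z, hzdef⟩ : ∃ z : ℕ → L × J → CC q ℤ_[p], ∀ a0 i, z a0 i =
      ∑ e : Fin ν × Fin (d + 1), (g i.2 e.1).coeff (a0 + p * (e.2 : ℕ)) *
        phC q ℤ_[p] p (r' (e, i.1)) := ⟨_, fun _ _ => rfl⟩
  choose x hx using hcong
  have hwfix : hmap (phC q ℤ_[p] p) (wO q ℤ_[p]) = wO q ℤ_[p] := by
    unfold wO tt
    rw [hmap_single, map_one]
  have hpah : ∀ a0 < p, ∀ j, pa p a0 (h j) =
      (∑ l, HahnSeries.C (z a0 (l, j)) * hmap (phC q ℤ_[p] p) (T' (a l))) +
        ((p ^ N : ℕ) : OO q ℤ_[p]) * pa p a0 (x j) := by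
    intro a0 ha0 j
    have h1 : h j = (∑ e, (g j e).eval₂ HahnSeries.C (wO q ℤ_[p]) *
        phO q ℤ_[p] p (κ' e)) + ((p ^ N : ℕ) : OO q ℤ_[p]) * x j := by
      have := hx j
      rw [sub_eq_iff_eq_add'] at this
      rw [this, Nat.cast_pow]
    have h2 : ∀ e, pa p a0 ((g j e).eval₂ HahnSeries.C (wO q ℤ_[p]) *
        phO q ℤ_[p] p (κ' e)) = ∑ b : Fin (d + 1),
          HahnSeries.C ((g j e).coeff (a0 + p * (b : ℕ))) *
            hmap (phC q ℤ_[p] p) (T' (e, b)) := by
      intro e
      rw [hphO, pa_mul_hphi hpos]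
      have h3 : pa p a0 ((g j e).eval₂ HahnSeries.C (wO q ℤ_[p])) = _ :=
        pa_eval hpos ha0 (g j e) (hdeg j e)
      rw [h3, Finset.sum_mul]
      apply Finset.sum_congr rfl
      intro b _
      rw [hT'def, map_mul, map_pow, hwfix, mul_assoc]
      rfl
    have h4 : ∑ e, pa p a0 ((g j e).eval₂ HahnSeries.C (wO q ℤ_[p]) *
        phO q ℤ_[p] p (κ' e)) = ∑ e : Fin ν × Fin (d + 1),
          HahnSeries.C ((g j e.1).coeff (a0 + p * (e.2 : ℕ))) *
            hmap (phC q ℤ_[p] p) (T' e) := by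
      rw [Fintype.sum_prod_type]
      exact Finset.sum_congr rfl fun e _ => h2 e
    have h5 : ∀ e : Fin ν × Fin (d + 1), HahnSeries.C ((g j e.1).coeff (a0 + p * (e.2 : ℕ))) *
        hmap (phC q ℤ_[p] p) (T' e) = ∑ l,
          HahnSeries.C ((g j e.1).coeff (a0 + p * (e.2 : ℕ)) * phC q ℤ_[p] p (r' (e, l))) *
            hmap (phC q ℤ_[p] p) (T' (a l)) := by
      intro e
      conv_lhs => rw [hTr e]
      rw [map_sum, Finset.mul_sum]
      apply Finset.sum_congr rfl
      intro l _
      rw [map_mul, hmap_C, map_mul, mul_assoc]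
    rw [h1, map_add, map_sum, h4, pa_natCast_mul]
    congr 1
    rw [Finset.sum_congr rfl (fun e _ => h5 e), Finset.sum_comm]
    apply Finset.sum_congr rfl
    intro l _
    rw [← Finset.sum_mul, ← map_sum, hzdef]
  -- orders of the lifts and of the errors
  have hκord : ∀ e, OrdGe (-(B : ℤ)) (κ' e) := by
    intro e m hm
    apply mC_zq_inj
    have h1 := congrArg (fun y : OO q ℚ_[p] => y.coeff m) (hκ' e)
    have h2 : mC q ι ((κ e).coeff m) = mC q (zq p) ((κ' e).coeff m) := h1
    rw [← h2, hB e m hm, map_zero, map_zero]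
  have hxord : ∀ j, ∀ m : ℤ, m < -((p : ℤ) * Cc) → (x j).coeff m = 0 := by
    intro j m hm
    have hdC : (d : ℤ) ≤ Cc := by exact_mod_cast le_max_left d B
    have hBC : (B : ℤ) ≤ Cc := by exact_mod_cast le_max_right d B
    have h1 : ((p ^ N : ℕ) : OO q ℤ_[p]) * x j = h j - (∑ e, (g j e).eval₂ HahnSeries.C
        (wO q ℤ_[p]) * phO q ℤ_[p] p (κ' e)) := by
      rw [hx j, Nat.cast_pow]
    have h2 : (h j).coeff m = 0 := by
      apply hord j
      push_cast
      nlinarith
    have h3 : ∀ e, ((g j e).eval₂ HahnSeries.C (wO q ℤ_[p]) *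
        phO q ℤ_[p] p (κ' e)).coeff m = 0 := by
      intro e
      have h4 : ((g j e).eval₂ HahnSeries.C (wO q ℤ_[p]) *
        phO q ℤ_[p] p (κ' e)).coeff m ∈ (⊥ : AddSubgroup (CC q ℤ_[p])) := by
        apply coeff_mul_mem
        intro b c hbc
        rw [AddSubgroup.mem_bot]
        by_cases hb : b < 0
        · have h5 : ((g j e).eval₂ HahnSeries.C (wO q ℤ_[p])).coeff b = 0 := by
            have h6 := coeff_eval (g j e) b
            rw [if_neg (by omega)] at h6
            exact h6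
          rw [h5, zero_mul]
        · have h5 : (phO q ℤ_[p] p (κ' e)).coeff c = 0 := by
            by_cases hc : (p : ℤ) ∣ c
            · obtain ⟨c', rfl⟩ := hc
              rw [phO_coeff q hpos, hκord e c', map_zero]
              push Not at hb
              by_contra hcon
              push Not at hcon
              have : (p : ℤ) * (-(B : ℤ)) ≤ p * c' := mul_le_mul_of_nonneg_left hcon hpp.le
              nlinarith
            · exact phO_coeff_ne q hpos _ c hc
          rw [h5, mul_zero]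
      exact AddSubgroup.mem_bot.mp h4
    have h4 : (((p ^ N : ℕ) : OO q ℤ_[p]) * x j).coeff m = 0 := by
      rw [h1, HahnSeries.coeff_sub, h2, zero_sub, neg_eq_zero]
      have h5 : ∀ T0 : Finset (Fin ν), (∑ e ∈ T0, (g j e).eval₂ HahnSeries.C
          (wO q ℤ_[p]) * phO q ℤ_[p] p (κ' e)).coeff m = 0 := by
        intro T0
        induction T0 using Finset.induction_on with
        | empty => rw [Finset.sum_empty]; rfl
        | insert b T0 hb ih => rw [Finset.sum_insert hb, HahnSeries.coeff_add, h3 b, ih, add_zero]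
      exact h5 _
    rw [natCast_mul_coeff] at h4
    have h6 : ∀ k : ℕ, ∀ y : CC q ℤ_[p], ((p ^ k : ℕ) : CC q ℤ_[p]) * y = 0 → y = 0 := by
      intro k
      induction k with
      | zero =>
        intro y hy
        rw [pow_zero, Nat.cast_one, one_mul] at hy
        exact hy
      | succ k ih =>
        intro y hy
        apply ih
        apply CC_tf (p := p)
        rw [← hy, pow_succ]
        push_cast
        ring
    exact h6 N _ h4
  -- the errors are integral
  have herr : ∀ a0 < p, ∀ i' : L × J, ∃ E' : CC q ℤ_[p],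
      (∑ j, mO q (zq p) (pa p a0 (x j)) * hmap (phC q ℚ_[p] p) (mO q ι (α j))).coeff (μ i') =
        mC q (zq p) E' := by
    intro a0 ha0 i'
    have h1 : ∀ j, (mO q (zq p) (pa p a0 (x j)) *
        hmap (phC q ℚ_[p] p) (mO q ι (α j))).coeff (μ i') ∈
        (mC q (zq p)).toAddMonoidHom.range := by
      intro j
      apply coeff_mul_mem
      intro b c hbc
      show mC q (zq p) ((pa p a0 (x j)).coeff b) * phC q ℚ_[p] p (mC q ι ((α j).coeff c)) ∈ _
      by_cases hb : b < -(Cc : ℤ)
      · have h2 : (pa p a0 (x j)).coeff b = 0 := by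
          rw [pa_coeff hpos]
          apply hxord j
          have ha0' : (a0 : ℤ) < p := by exact_mod_cast ha0
          nlinarith
        rw [h2, map_zero, zero_mul]
        exact zero_mem _
      · push Not at hb
        by_cases hc : c < -(Bα : ℤ)
        · rw [hBα j c hc, map_zero, map_zero, mul_zero]
          exact zero_mem _
        · push Not at hc
          have hcm : c ∈ Finset.Icc (-(Bα : ℤ)) ((Y : ℤ) + Cc) := by
            rw [Finset.mem_Icc]
            refine ⟨hc, ?_⟩
            have := hY i'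
            omega
          have h3 := hα' (j, ⟨c, hcm⟩)
          simp only at h3
          rw [h3, ← hphC, ← map_mul]
          exact ⟨_, rfl⟩
    have h2 : ∀ T0 : Finset J, (∑ j ∈ T0, mO q (zq p) (pa p a0 (x j)) *
        hmap (phC q ℚ_[p] p) (mO q ι (α j))).coeff (μ i') ∈
        (mC q (zq p)).toAddMonoidHom.range := by
      intro T0
      induction T0 using Finset.induction_on with
      | empty => rw [Finset.sum_empty]; exact zero_mem _
      | insert b T0 hb ih =>
        rw [Finset.sum_insert hb, HahnSeries.coeff_add]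
        exact add_mem (h1 b) ih
    obtain ⟨E', hE'⟩ := h2 Finset.univ
    exact ⟨E', hE'.symm⟩
  -- the linear system
  have hsys : ∀ a0 < p, ∀ i' : L × J, (p : CC q ℤ_[p]) ^ N ∣
      ∑ i, z a0 i * phC q ℤ_[p] p (V (i, i')) := by
    intro a0 ha0 i'
    obtain ⟨E', hE'⟩ := herr a0 ha0 i'
    have hmapT : ∀ e, mO q (zq p) (hmap (phC q ℤ_[p] p) (T' e)) =
        hmap (phC q ℚ_[p] p) (mO q ι (T e)) := by
      intro e
      rw [hT']
      ext1
      funext m
      exact hphC _
    have hmo : ∀ y : OO q ℤ_[p], pa p a0 (mO q (zq p) y) = mO q (zq p) (pa p a0 y) :=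
      fun y => pa_hmap hpos a0 (mC q (zq p)) y
    have h1 : pa p a0 (∑ j, mO q (zq p) (h j) * phO q ℚ_[p] p (mO q ι (α j))) =
        (∑ j, ∑ l, HahnSeries.C (mC q (zq p) (z a0 (l, j))) *
          hmap (phC q ℚ_[p] p) (mO q ι (v (l, j)))) +
        ((p ^ N : ℕ) : OO q ℚ_[p]) *
          ∑ j, mO q (zq p) (pa p a0 (x j)) * hmap (phC q ℚ_[p] p) (mO q ι (α j)) := by
      rw [map_sum, Finset.mul_sum, ← Finset.sum_add_distrib]
      apply Finset.sum_congr rfl
      intro j _
      rw [hphO, pa_mul_hphi hpos, hmo, hpah a0 ha0 j, map_add, map_sum, map_mul, map_natCast,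
        add_mul, Finset.sum_mul, mul_assoc]
      congr 1
      apply Finset.sum_congr rfl
      intro l _
      rw [map_mul, mO_C, hmapT, hvdef, map_mul, map_mul, mul_assoc]
    have h2 : (∑ j, mO q (zq p) (h j) * phO q ℚ_[p] p (mO q ι (α j)) : OO q ℚ_[p]).coeff
        ((p : ℤ) * μ i' + a0) =
        mC q (zq p) ((∑ i, z a0 i * phC q ℤ_[p] p (V (i, i'))) +
          ((p ^ N : ℕ) : CC q ℤ_[p]) * E') := by
      rw [← pa_coeff hpos, h1, HahnSeries.coeff_add, natCast_mul_coeff, hE', map_add, map_mul,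
        map_natCast]
      congr 1
      rw [map_sum, Fintype.sum_prod_type_right]
      have h3 : ∀ y : OO q ℚ_[p], y.coeff (μ i') = cfh (μ i') y := fun _ => rfl
      rw [h3, map_sum]
      apply Finset.sum_congr rfl
      intro j _
      rw [map_sum]
      apply Finset.sum_congr rfl
      intro l _
      rw [cfh_apply, HahnSeries.C_apply, HahnSeries.coeff_single_zero_mul, map_mul, hphC]
      congr 1
      show phC q ℚ_[p] p (mC q ι ((v (l, j)).coeff (μ i'))) = _
      rw [hV ((l, j), i')]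
    have h4 : (p : CC q ℤ_[p]) ^ N ∣ (∑ i, z a0 i * phC q ℤ_[p] p (V (i, i'))) +
          ((p ^ N : ℕ) : CC q ℤ_[p]) * E' := by
      apply dvd_of_norm hLFT
      intro γ
      rw [← h2]
      apply hnorm
      have h5 := hY i'
      have ha0' : (a0 : ℤ) < p := by exact_mod_cast ha0
      push_cast
      nlinarith
    have h5 : (p : CC q ℤ_[p]) ^ N ∣ ((p ^ N : ℕ) : CC q ℤ_[p]) * E' := by
      rw [Nat.cast_pow]
      exact dvd_mul_right _ _
    exact (dvd_add_left h5).mp h4
  -- the unknowns are small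
  have hz : ∀ a0 < p, ∀ i : L × J, (p : CC q ℤ_[p]) ^ N ∣ z a0 i := by
    intro a0 ha0 i
    let Mx : Matrix (L × J) (L × J) (CC q ℤ_[p]) := Matrix.of fun i i' => V (i, i')
    have hunit : IsUnit Mx.det := by
      apply hp1 p hpp1 ι
      have h1 := RingHom.map_det (mC q ι)
        (Matrix.of fun i i' => (v i).coeff (μ i') : Matrix (L × J) (L × J) (CC q K))
      have h2 := RingHom.map_det (mC q (zq p)) Mx
      rw [h1, h2]
      congr 1
      ext1 i1 i2
      exact hV (i1, i2)
    have hunit2 : IsUnit ((phC q ℤ_[p] p).mapMatrix Mx).det := by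
      rw [← RingHom.map_det]
      exact hunit.map _
    have hcol : ∀ i', (p : CC q ℤ_[p]) ^ N ∣
        (Matrix.vecMul (z a0) ((phC q ℤ_[p] p).mapMatrix Mx)) i' := by
      intro i'
      exact hsys a0 ha0 i'
    choose y hy using hcol
    have h3 : Matrix.vecMul (z a0) ((phC q ℤ_[p] p).mapMatrix Mx) =
        fun i' => (p : CC q ℤ_[p]) ^ N * y i' := funext hy
    have h4 := congrArg (fun u => Matrix.vecMul u
      ((phC q ℤ_[p] p).mapMatrix Mx).adjugate i) h3
    rw [Matrix.vecMul_vecMul, Matrix.mul_adjugate] at h4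
    have h5 : Matrix.vecMul (z a0) (((phC q ℤ_[p] p).mapMatrix Mx).det • 1) i =
        ((phC q ℤ_[p] p).mapMatrix Mx).det * z a0 i := by
      rw [Matrix.vecMul_smul, Matrix.vecMul_one]
      rfl
    rw [h5] at h4
    have h6 : (p : CC q ℤ_[p]) ^ N ∣ ((phC q ℤ_[p] p).mapMatrix Mx).det * z a0 i := by
      rw [h4]
      show _ ∣ ∑ i', ((p : CC q ℤ_[p]) ^ N * y i') * _
      apply Finset.dvd_sum
      intro i' _
      rw [mul_assoc]
      exact dvd_mul_right _ _
    exact (IsUnit.dvd_mul_left hunit2).mp h6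
  -- conclusion
  intro j
  rw [(hLFT q p).2.2.2.1 N (h j)]
  intro m
  have hmod := Int.emod_add_mul_ediv m p
  have hm0 := Int.emod_nonneg m hpp.ne'
  have hm1 := Int.emod_lt_of_pos m hpp
  obtain ⟨a0, ha0⟩ := Int.eq_ofNat_of_zero_le hm0
  have ha0p : a0 < p := by
    have : (a0 : ℤ) < p := by rw [← ha0]; exact hm1
    exact_mod_cast this
  have h1 : (h j).coeff m = (pa p a0 (h j)).coeff (m / p) := by
    rw [pa_coeff hpos]
    congr 1
    rw [← ha0]
    omega
  rw [h1]
  have h2 : (p : OO q ℤ_[p]) ^ N ∣ pa p a0 (h j) := by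
    rw [hpah a0 ha0p j]
    apply dvd_add
    · apply Finset.dvd_sum
      intro l _
      obtain ⟨y, hy⟩ := hz a0 ha0p (l, j)
      rw [hy, map_mul, map_pow, map_natCast, mul_assoc]
      exact dvd_mul_right _ _
    · rw [Nat.cast_pow]
      exact dvd_mul_right _ _
  exact ((hLFT q p).2.2.2.1 N _).mp h2 _

end Pool.Agent.Helper95_CM
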