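import Pool.Agent.Helper13_CM.Nn
import Pool.Agent.Helper95_CM.StE

/-!
# IND, first part: minors, contraction along residue classes
Helper file for module IND of the CM project (MP_31342c_an).
-/

set_option autoImplicit false
set_option linter.unusedSectionVars false

noncomputable section

namespace Pool.Agent.Helper95_CM

open MvPolynomial

namespace H13

/-! ### a nonvanishing minor -/

lemma exists_minor {F ι Z : Type} [Field F] [Fintype ι] [DecidableEq ι] (v : ι → Z → F)
    (hv : LinearIndependent F v) :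
    ∃ μ : ι → Z, (Matrix.of fun i i' => v i (μ i')).det ≠ 0 := by
  classical
  set w : Z → (ι → F) := fun z i => v i z with hw
  have hspan : Submodule.span F (Set.range w) = ⊤ := by
    by_contra hne
    obtain ⟨f, hf0, hf⟩ := Submodule.exists_le_ker_of_lt_top _ (lt_top_iff_ne_top.mpr hne)
    apply hf0
    have h1 : ∀ z, ∑ i, f (Pi.single i 1) * v i z = 0 := by
      intro z
      have h2 : f (w z) = 0 := hf (Submodule.subset_span ⟨z, rfl⟩)
      have h3 : w z = ∑ i, v i z • (Pi.single i (1 : F) : ι → F) := by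
        ext k
        rw [Finset.sum_apply]
        simp [Pi.single_apply, hw]
      rw [h3, map_sum] at h2
      rw [← h2]
      apply Finset.sum_congr rfl
      intro i _
      rw [map_smul, smul_eq_mul, mul_comm]
    have h4 : ∀ i, f (Pi.single i 1) = 0 := by
      apply Fintype.linearIndependent_iff.mp hv
      funext z
      rw [Finset.sum_apply]
      simp only [Pi.smul_apply, smul_eq_mul, Pi.zero_apply]
      exact h1 z
    apply LinearMap.pi_ext'
    intro i
    apply LinearMap.ext_ring
    exact h4 i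
  obtain ⟨κ, b, hb, hsp, hli⟩ := exists_linearIndependent' F w
  rw [hspan] at hsp
  let B := Module.Basis.mk hli hsp.ge
  have _ : Fintype κ := FiniteDimensional.fintypeBasisIndex B
  have hcard : Fintype.card ι = Fintype.card κ := by
    rw [← Module.finrank_eq_card_basis B, Module.finrank_fintype_fun_eq_card]
  obtain ⟨e⟩ := Fintype.card_eq.mp hcard
  refine ⟨fun i => b (e i), ?_⟩
  have h5 : LinearIndependent F (fun i => w (b (e i))) := hli.comp e e.injective
  have h6 : IsUnit (Matrix.of fun i i' => w (b (e i)) i') :=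
    Matrix.linearIndependent_rows_iff_isUnit.mp h5
  rw [Matrix.isUnit_iff_isUnit_det, isUnit_iff_ne_zero] at h6
  have h7 : (Matrix.of fun i i' => v i (b (e i'))) =
      (Matrix.of fun i i' => w (b (e i)) i').transpose := by
    ext i i'
    rfl
  rw [h7, Matrix.det_transpose]
  exact h6

/-! ### contraction along residue classes -/

section pa
variable {R S : Type} [CommRing R] [CommRing S]

/-- coefficients along the residue class of `a` modulo `p` -/
def pa (p a : ℕ) : LaurentSeries R →+ LaurentSeries R :=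
  (hpsi p).comp (AddMonoidHom.mulLeft (HahnSeries.single (-(a : ℤ)) (1 : R)))

lemma pa_coeff {p : ℕ} (hp : 0 < p) (a : ℕ) (x : LaurentSeries R) (μ : ℤ) :
    (pa p a x).coeff μ = x.coeff ((p : ℤ) * μ + a) := by
  show (hpsi p (HahnSeries.single (-(a : ℤ)) (1 : R) * x)).coeff μ = _
  rw [hpsi_coeff hp, HahnSeries.coeff_single_mul, one_mul, nsmul_eq_mul]
  congr 1
  ring

lemma hpsi_mul_hphi {p : ℕ} (hp : 0 < p) (y z : LaurentSeries R) :
    hpsi p (y * hphi R p z) = hpsi p y * z := by
  classical
  have hp0 : (p : ℤ) ≠ 0 := by exact_mod_cast hp.ne'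
  have hc : ∀ (z : LaurentSeries R) (m : ℤ), (hphi R p z).coeff ((p : ℤ) * m) = z.coeff m := by
    intro z m
    have := hphi_coeff hp z m
    rw [nsmul_eq_mul] at this
    exact this
  have hps : ∀ (z : LaurentSeries R) (m : ℤ), (hpsi p z).coeff m = z.coeff ((p : ℤ) * m) := by
    intro z m
    rw [hpsi_coeff hp, nsmul_eq_mul]
  ext1
  funext μ
  rw [hps, HahnSeries.coeff_mul, HahnSeries.coeff_mul]
  symm
  apply Finset.sum_bij (fun (ij : ℤ × ℤ) _ => ((p : ℤ) * ij.1, (p : ℤ) * ij.2))
  · intro ij hij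
    rw [Finset.mem_antidiagonal] at hij ⊢
    obtain ⟨h1, h2, h3⟩ := hij
    refine ⟨?_, ?_, ?_⟩
    · rw [HahnSeries.mem_support, hps] at h1
      exact h1
    · rw [HahnSeries.mem_support] at h2 ⊢
      rw [hc]
      exact h2
    · simp only
      rw [← h3]; ring
  · intro a _ b _ hab
    simp only [Prod.mk.injEq] at hab
    ext
    · exact mul_left_cancel₀ hp0 hab.1
    · exact mul_left_cancel₀ hp0 hab.2
  · intro ij hij
    rw [Finset.mem_antidiagonal] at hij
    obtain ⟨h1, h2, h3⟩ := hij
    rw [HahnSeries.mem_support] at h1 h2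
    have h4 : ∃ j' : ℤ, (p : ℤ) * j' = ij.2 := by
      by_contra hne
      push Not at hne
      apply h2
      apply hphi_coeff_ne hp
      intro g' hg'
      apply hne g'
      rw [← hg', nsmul_eq_mul]
    obtain ⟨j', hj'⟩ := h4
    have h5 : ij.1 = (p : ℤ) * (μ - j') := by
      rw [mul_sub, hj']; omega
    refine ⟨(μ - j', j'), ?_, ?_⟩
    · rw [Finset.mem_antidiagonal]
      refine ⟨?_, ?_, ?_⟩
      · rw [HahnSeries.mem_support, hps, ← h5]
        exact h1
      · rw [HahnSeries.mem_support, ← hc z j', hj']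
        exact h2
      · simp only; ring
    · simp only
      rw [← h5, hj']
  · intro ij _
    rw [hps, hc]

lemma pa_mul_hphi {p : ℕ} (hp : 0 < p) (a : ℕ) (y z : LaurentSeries R) :
    pa p a (y * hphi R p z) = pa p a y * z := by
  show hpsi p (HahnSeries.single (-(a : ℤ)) (1 : R) * (y * hphi R p z)) =
    hpsi p (HahnSeries.single (-(a : ℤ)) (1 : R) * y) * z
  rw [← mul_assoc, hpsi_mul_hphi hp]

lemma pa_hmap {p : ℕ} (hp : 0 < p) (a : ℕ) (f : R →+* S) (x : LaurentSeries R) :
    pa p a (hmap f x) = hmap f (pa p a x) := by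
  ext1
  funext μ
  rw [pa_coeff hp, hmap_coeff, hmap_coeff, pa_coeff hp]

lemma natCast_mul_coeff {G : Type} [AddCommGroup G] [LinearOrder G] [IsOrderedAddMonoid G]
    (k : ℕ) (x : HahnSeries G R) (m : G) :
    ((k : HahnSeries G R) * x).coeff m = (k : R) * x.coeff m := by
  rw [← nsmul_eq_mul, HahnSeries.coeff_nsmul, Pi.smul_apply, nsmul_eq_mul]

lemma pa_natCast_mul (p a k : ℕ) (x : LaurentSeries R) :
    pa p a ((k : LaurentSeries R) * x) = (k : LaurentSeries R) * pa p a x := by
  rw [← nsmul_eq_mul, ← nsmul_eq_mul, map_nsmul]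

lemma hmap_inj {G : Type} [AddCommGroup G] [LinearOrder G] [IsOrderedAddMonoid G]
    (f : R →+* S) (hf : Function.Injective f) :
    Function.Injective (hmap (G := G) f) := by
  intro x y h
  ext1
  funext g
  apply hf
  rw [← hmap_coeff, ← hmap_coeff, h]

lemma hmap_hphi {G : Type} [AddCommGroup G] [LinearOrder G] [IsOrderedAddMonoid G]
    {p : ℕ} (hp : 0 < p) (f : R →+* S) (x : HahnSeries G R) :
    hmap f (hphi R p x) = hphi S p (hmap f x) := by
  ext1
  funext g
  rw [hmap_coeff]
  by_cases h : ∃ g', p • g' = g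
  · obtain ⟨g', rfl⟩ := h
    rw [hphi_coeff hp, hphi_coeff hp, hmap_coeff]
  · push Not at h
    rw [hphi_coeff_ne hp x g h, hphi_coeff_ne hp _ g h, map_zero]

lemma ord_lb (x : LaurentSeries R) : ∃ b : ℕ, OrdGe (-(b : ℤ)) x := by
  by_cases hx : x = 0
  · exact ⟨0, fun m _ => by rw [hx]; rfl⟩
  · refine ⟨(-x.order).toNat, fun m hm => ?_⟩
    apply HahnSeries.coeff_eq_zero_of_lt_order
    have := Int.self_le_toNat (-x.order)
    omega

/-- coefficients of a polynomial in the variable -/
lemma coeff_eval (g : Polynomial R) (m : ℤ) :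
    (g.eval₂ HahnSeries.C (tt R)).coeff m = if 0 ≤ m then g.coeff m.toNat else 0 := by
  classical
  have hsum : ∀ (T : Finset ℕ) (u : ℕ → LaurentSeries R) (m : ℤ),
      (∑ i ∈ T, u i).coeff m = ∑ i ∈ T, (u i).coeff m := by
    intro T u m
    induction T using Finset.induction_on with
    | empty => rw [Finset.sum_empty, Finset.sum_empty]; rfl
    | insert a T ha ih => rw [Finset.sum_insert ha, Finset.sum_insert ha, HahnSeries.coeff_add, ih]
  have hterm : ∀ (i : ℕ) (c : R), (HahnSeries.C c * tt R ^ i : LaurentSeries R) =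
      HahnSeries.single (i : ℤ) c := by
    intro i c
    unfold tt
    rw [HahnSeries.single_pow, one_pow, HahnSeries.C_apply, HahnSeries.single_mul_single, zero_add,
      mul_one, nsmul_eq_mul, mul_one]
  rw [Polynomial.eval₂_eq_sum_range' (n := g.natDegree + 1 + m.toNat) _ (by omega), hsum]
  simp only [hterm, HahnSeries.coeff_single]
  split_ifs with h
  · rw [Finset.sum_eq_single m.toNat]
    · rw [if_pos (Int.toNat_of_nonneg h).symm]
    · intro i _ hi
      rw [if_neg]
      intro h2
      apply hi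
      omega
    · intro h2
      exfalso
      apply h2
      rw [Finset.mem_range]
      omega
  · apply Finset.sum_eq_zero
    intro i _
    rw [if_neg]
    omega

/-- contraction of a polynomial -/
lemma pa_eval {p d : ℕ} (hp : 0 < p) {a : ℕ} (ha : a < p) (g : Polynomial R)
    (hg : g.natDegree ≤ d * p) :
    pa p a (g.eval₂ HahnSeries.C (tt R)) =
      ∑ b : Fin (d + 1), HahnSeries.C (g.coeff (a + p * (b : ℕ))) * tt R ^ (b : ℕ) := by
  classical
  have hR : (∑ b : Fin (d + 1), HahnSeries.C (g.coeff (a + p * (b : ℕ))) * tt R ^ (b : ℕ)) =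
      (∑ b ∈ Finset.range (d + 1), Polynomial.monomial b (g.coeff (a + p * b))).eval₂
        HahnSeries.C (tt R) := by
    rw [Polynomial.eval₂_finsetSum, Finset.sum_range]
    apply Finset.sum_congr rfl
    intro b _
    rw [Polynomial.eval₂_monomial]
  rw [hR]
  ext1
  funext μ
  rw [pa_coeff hp, coeff_eval, coeff_eval, Polynomial.finsetSum_coeff]
  simp only [Polynomial.coeff_monomial]
  have hp' : (0 : ℤ) < p := by exact_mod_cast hp
  by_cases hμ : 0 ≤ μ
  · have h1 : 0 ≤ (p : ℤ) * μ + a := by positivity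
    rw [if_pos h1, if_pos hμ]
    obtain ⟨k, rfl⟩ := Int.eq_ofNat_of_zero_le hμ
    have h2 : ((p : ℤ) * (k : ℤ) + a).toNat = a + p * k := by
      have : (p : ℤ) * (k : ℤ) + a = ((a + p * k : ℕ) : ℤ) := by push_cast; ring
      rw [this, Int.toNat_natCast]
    rw [h2, Int.toNat_natCast, Finset.sum_ite_eq' (Finset.range (d + 1)) k]
    split_ifs with h3
    · rfl
    · rw [Finset.mem_range, not_lt] at h3
      apply Polynomial.coeff_eq_zero_of_natDegree_lt
      calc g.natDegree ≤ d * p := hg
        _ < p * (d + 1) := by nlinarith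
        _ ≤ a + p * k := by nlinarith
  · rw [if_neg hμ, if_neg]
    intro h1
    apply hμ
    push Not at hμ
    have ha' : (a : ℤ) < p := by exact_mod_cast ha
    nlinarith

end pa

/-! ### lifts of finitely many spreadable elements -/

section lifts
variable {q : ℕ} {K : Type} [Field K]

lemma spr_fin {I : Type} [Fintype I] (x : I → CC q K) (hx : ∀ i, SprC (x i)) :
    ∃ p0 : ℕ, ∀ (p : ℕ) [Fact p.Prime], p0 ≤ p → ∀ ι : K →+* ℚ_[p],
      ∃ y : I → CC q ℤ_[p], ∀ i, mC q ι (x i) = mC q (zq p) (y i) := by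
  choose P hP using hx
  refine ⟨Finset.univ.sup P, ?_⟩
  intro p _ hp ι
  have h : ∀ i, ∃ y : CC q ℤ_[p], mC q ι (x i) = mC q (zq p) y :=
    fun i => hP i p ((Finset.le_sup (Finset.mem_univ i)).trans hp) ι
  choose y hy using h
  exact ⟨y, hy⟩

end lifts

end H13

end Pool.Agent.Helper95_CM
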