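import Pool.Agent.Helper95_CM.StG

/-!
# Linear functionals on the polynomial ring given by values on monomials
Helper file for the CM project (MP_31342c_an), modules CPH, CLIM, CPS, CVF.
-/

set_option autoImplicit false
set_option linter.unusedSectionVars false

noncomputable section

namespace Pool.Agent.Helper95_CM

open MvPolynomial

namespace H13

section lf
variable {n : ℕ} {R S : Type} [CommRing R] [CommRing S]

lemma lf_sum_superset (v : Expo n → S) (x : PP n S) (T : Finset (Expo n)) (hT : x.support ⊆ T) :
    (x.support.sum fun s => coeff s x * v s) = ∑ s ∈ T, coeff s x * v s := by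
  apply Finset.sum_subset hT
  intro s _ hs
  rw [notMem_support_iff.mp hs, zero_mul]

/-- linear functional with given values on monomials -/
def lf (v : Expo n → S) : PP n S →ₗ[S] S where
  toFun x := x.support.sum fun s => coeff s x * v s
  map_add' x y := by
    classical
    rw [lf_sum_superset v (x + y) (x.support ∪ y.support) support_add,
      lf_sum_superset v x (x.support ∪ y.support) Finset.subset_union_left,
      lf_sum_superset v y (x.support ∪ y.support) Finset.subset_union_right,
      ← Finset.sum_add_distrib]
    apply Finset.sum_congr rfl
    intro s _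
    rw [coeff_add, add_mul]
  map_smul' a x := by
    classical
    rw [lf_sum_superset v (a • x) x.support support_smul, RingHom.id_apply, smul_eq_mul,
      Finset.mul_sum]
    apply Finset.sum_congr rfl
    intro s _
    rw [coeff_smul, smul_eq_mul, mul_assoc]

lemma lf_def (v : Expo n → S) (x : PP n S) :
    lf v x = x.support.sum fun s => coeff s x * v s := rfl

lemma lf_eq_of_subset (v : Expo n → S) (x : PP n S) (T : Finset (Expo n)) (hT : x.support ⊆ T) :
    lf v x = ∑ s ∈ T, coeff s x * v s := lf_sum_superset v x T hT

lemma lf_C_mul (v : Expo n → S) (a : S) (x : PP n S) : lf v (C a * x) = a * lf v x := by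
  rw [← smul_eq_C_mul, map_smul, smul_eq_mul]

lemma lf_mon (v : Expo n → S) (s : Expo n) : lf v (mon s) = v s := by
  classical
  rw [lf_eq_of_subset v (mon s) {s} (by unfold mon; exact support_monomial_subset),
    Finset.sum_singleton]
  unfold mon
  rw [coeff_monomial, if_pos rfl, one_mul]

lemma lf_monomial (v : Expo n → S) (s : Expo n) (a : S) : lf v (monomial s a) = a * v s := by
  have h : (monomial s a : PP n S) = C a * mon s := by
    unfold mon; rw [C_mul_monomial, mul_one]
  rw [h, lf_C_mul, lf_mon]

/-- decomposition into monomials -/
lemma sum_C_mon (x : PP n S) : x = ∑ s ∈ x.support, C (coeff s x) * mon s := by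
  conv_lhs => rw [← support_sum_monomial_coeff x]
  apply Finset.sum_congr rfl
  intro s _
  unfold mon
  rw [C_mul_monomial, mul_one]

/-- `lf` and change of coefficients: values -/
lemma lf_map (g : R →+* S) (v : Expo n → R) (x : PP n R) :
    lf (fun s => g (v s)) (map g x) = g (lf v x) := by
  classical
  rw [lf_eq_of_subset (fun s => g (v s)) (map g x) x.support (support_map_subset _ _), lf_def,
    map_sum]
  apply Finset.sum_congr rfl
  intro s _
  rw [coeff_map, map_mul]

/-- sum form of `lf` after a change of coefficients -/
lemma lf_map_sum (g : R →+* S) (v : Expo n → S) (x : PP n R) :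
    lf v (map g x) = x.support.sum fun s => g (coeff s x) * v s := by
  classical
  rw [lf_eq_of_subset v (map g x) x.support (support_map_subset _ _)]
  apply Finset.sum_congr rfl
  intro s _
  rw [coeff_map]

/-- additive extension over monomials in the support -/
lemma supp_induction {Q : Expo n → Prop} {P : PP n S → Prop} (h0 : P 0)
    (hadd : ∀ x y, P x → P y → P (x + y)) (hm : ∀ s a, Q s → P (C a * mon s))
    (x : PP n S) (hx : Supp Q x) : P x := by
  classical
  rw [sum_C_mon x]
  have : ∀ T : Finset (Expo n), (∀ s ∈ T, s ∈ x.support) →
      P (∑ s ∈ T, C (coeff s x) * mon s) := by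
    intro T
    induction T using Finset.induction_on with
    | empty => intro _; rw [Finset.sum_empty]; exact h0
    | insert a T ha ih =>
      intro hT
      rw [Finset.sum_insert ha]
      apply hadd
      · apply hm
        exact hx a (mem_support_iff.mp (hT a (Finset.mem_insert_self a T)))
      · exact ih fun s hs => hT s (Finset.mem_insert_of_mem hs)
  exact this x.support fun s hs => hs

end lf

end H13

end Pool.Agent.Helper95_CM
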