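import Pool.Agent.Helper13_CM.Cph

/-!
# Series without negative exponents in `t`, `w`; bounds; reduction at `t = w = 0`
Helper file for the CM project (MP_31342c_an), module CLIM.
-/

set_option autoImplicit false
set_option linter.unusedSectionVars false

noncomputable section

namespace Pool.Agent.Helper95_CM

open MvPolynomial

namespace H13

section gen
variable {G : Type} [AddCommGroup G] [LinearOrder G] [IsOrderedAddMonoid G]
variable {R : Type} [CommRing R]

lemma coeff_mul_mem (H : AddSubgroup R) (x y : HahnSeries G R) (g : G)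
    (h : ∀ a b, a + b = g → x.coeff a * y.coeff b ∈ H) : (x * y).coeff g ∈ H := by
  rw [HahnSeries.coeff_mul]
  apply sum_mem
  intro ij hij
  rw [Finset.mem_antidiagonal] at hij
  exact h _ _ hij.2.2

lemma coeff_zero_mul (x y : HahnSeries ℤ R) (hx : ∀ m : ℤ, m < 0 → x.coeff m = 0)
    (hy : ∀ m : ℤ, m < 0 → y.coeff m = 0) : (x * y).coeff 0 = x.coeff 0 * y.coeff 0 := by
  rw [HahnSeries.coeff_mul, Finset.sum_eq_single ((0 : ℤ), (0 : ℤ))]
  · intro b hb hne
    rw [Finset.mem_antidiagonal] at hb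
    obtain ⟨-, -, h3⟩ := hb
    rcases lt_trichotomy b.1 0 with h | h | h
    · rw [hx _ h, zero_mul]
    · exfalso
      apply hne
      ext
      · exact h
      · simp only; omega
    · have : b.2 < 0 := by omega
      rw [hy _ this, mul_zero]
  · intro h
    rw [Finset.mem_antidiagonal] at h
    by_cases h1 : x.coeff 0 = 0
    · simp only [h1, zero_mul]
    · by_cases h2 : y.coeff 0 = 0
      · simp only [h2, mul_zero]
      · exact absurd ⟨h1, h2, add_zero 0⟩ h

end gen

section nn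
variable {q : ℕ} {R S : Type} [CommRing R] [CommRing S]

/-- no negative exponents in `t` and `w` -/
def NN (x : LL q R) : Prop := ∀ m m' : ℤ, m < 0 ∨ m' < 0 → (x.coeff m).coeff m' = 0

lemma cf2_mul_mem (H : AddSubgroup (CC q R)) (x y : LL q R) (m m' : ℤ)
    (h : ∀ a b a' b' : ℤ, a + b = m → a' + b' = m' →
      (x.coeff a).coeff a' * (y.coeff b).coeff b' ∈ H) : ((x * y).coeff m).coeff m' ∈ H := by
  have h1 : (x * y).coeff m ∈ (H.comap (⟨⟨fun z : OO q R => z.coeff m', rfl⟩,
      fun _ _ => rfl⟩ : OO q R →+ CC q R)) := by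
    apply coeff_mul_mem
    intro a b hab
    rw [AddSubgroup.mem_comap]
    show (x.coeff a * y.coeff b).coeff m' ∈ H
    apply coeff_mul_mem
    intro a' b' hab'
    exact h a b a' b' hab hab'
  exact h1

lemma cf3_mul_mem (H : AddSubgroup R) (x y : LL q R) (m m' : ℤ) (g : Gam q)
    (h : ∀ (a b a' b' : ℤ) (e e' : Gam q), a + b = m → a' + b' = m' → e + e' = g →
      ((x.coeff a).coeff a').coeff e * ((y.coeff b).coeff b').coeff e' ∈ H) :
    (((x * y).coeff m).coeff m').coeff g ∈ H := by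
  have h1 : ((x * y).coeff m).coeff m' ∈ (H.comap (⟨⟨fun z : CC q R => z.coeff g, rfl⟩,
      fun _ _ => rfl⟩ : CC q R →+ R)) := by
    apply cf2_mul_mem
    intro a b a' b' hab hab'
    rw [AddSubgroup.mem_comap]
    show ((x.coeff a).coeff a' * (y.coeff b).coeff b').coeff g ∈ H
    apply coeff_mul_mem
    intro e e' hee
    exact h a b a' b' e e' hab hab' hee
  exact h1

lemma NN.ord {x : LL q R} (hx : NN x) (m : ℤ) (hm : m < 0) : x.coeff m = 0 := by
  ext1
  funext m'
  rw [hx m m' (Or.inl hm)]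
  rfl

lemma NN.zero : NN (0 : LL q R) := fun _ _ _ => rfl

lemma NN.add {x y : LL q R} (hx : NN x) (hy : NN y) : NN (x + y) := by
  intro m m' h
  rw [HahnSeries.coeff_add, HahnSeries.coeff_add, hx m m' h, hy m m' h, add_zero]

lemma NN.neg {x : LL q R} (hx : NN x) : NN (-x) := by
  intro m m' h
  rw [HahnSeries.coeff_neg, HahnSeries.coeff_neg, hx m m' h, neg_zero]

lemma NN.sub {x y : LL q R} (hx : NN x) (hy : NN y) : NN (x - y) := by
  rw [sub_eq_add_neg]; exact hx.add hy.neg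

lemma NN.mul {x y : LL q R} (hx : NN x) (hy : NN y) : NN (x * y) := by
  intro m m' h
  have h1 : ((x * y).coeff m).coeff m' ∈ (⊥ : AddSubgroup (CC q R)) := by
    apply cf2_mul_mem
    intro a b a' b' hab hab'
    rw [AddSubgroup.mem_bot]
    have : (a < 0 ∨ a' < 0) ∨ (b < 0 ∨ b' < 0) := by omega
    rcases this with h2 | h2
    · rw [hx a a' h2, zero_mul]
    · rw [hy b b' h2, mul_zero]
  exact AddSubgroup.mem_bot.mp h1

lemma NN.C {x : OO q R} (hx : ∀ m' : ℤ, m' < 0 → x.coeff m' = 0) :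
    NN (HahnSeries.C x : LL q R) := by
  classical
  intro m m' h
  rw [HahnSeries.C_apply, HahnSeries.coeff_single]
  split_ifs with h0
  · rcases h with h | h
    · omega
    · exact hx m' h
  · rfl

lemma ordGe_C (x : CC q R) (m' : ℤ) (h : m' < 0) : (HahnSeries.C x : OO q R).coeff m' = 0 := by
  classical
  rw [HahnSeries.C_apply, HahnSeries.coeff_single, if_neg (by omega)]

lemma NN.CC (x : CC q R) : NN (HahnSeries.C (HahnSeries.C x) : LL q R) :=
  NN.C fun m' h => ordGe_C x m' h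

lemma NN.kL (a : R) : NN (kL q R a) := NN.CC _

lemma NN.vL (i : Fin q) : NN (vL q R i) := NN.CC _

lemma NN.one : NN (1 : LL q R) := by
  have h := NN.kL (q := q) (1 : R)
  rw [map_one] at h
  exact h

lemma NN.wL : NN (wL q R) := by
  classical
  apply NN.C
  intro m' h
  unfold wO tt
  rw [HahnSeries.coeff_single, if_neg (by omega)]

lemma NN.tL : NN (tL q R) := by
  classical
  intro m m' h
  unfold Helper95_CM.tL tt
  rw [HahnSeries.coeff_single]
  split_ifs with h0
  · rcases h with h | h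
    · omega
    · rw [HahnSeries.coeff_one, if_neg (by omega)]
  · rfl

variable (q R) in
/-- the subring of series without negative exponents in `t`, `w` -/
def NNs : Subring (LL q R) where
  carrier := {x | NN x}
  mul_mem' hx hy := NN.mul hx hy
  one_mem' := NN.one
  add_mem' hx hy := NN.add hx hy
  zero_mem' := NN.zero
  neg_mem' hx := NN.neg hx

lemma mem_NNs (x : LL q R) : x ∈ NNs q R ↔ NN x := Iff.rfl

lemma NN.natCast (k : ℕ) : NN (k : LL q R) := natCast_mem (NNs q R) k

lemma NN.pow {x : LL q R} (hx : NN x) (k : ℕ) : NN (x ^ k) := Subring.pow_mem (NNs q R) hx k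

lemma NN.sum {ι : Type} (T : Finset ι) (x : ι → LL q R) (h : ∀ i ∈ T, NN (x i)) :
    NN (∑ i ∈ T, x i) := Subring.sum_mem (NNs q R) h

lemma NN.mL (g : R →+* S) {x : LL q R} (hx : NN x) : NN (mL q g x) := by
  intro m m' h
  show mC q g ((x.coeff m).coeff m') = 0
  rw [hx m m' h, map_zero]

lemma NN.phL {p : ℕ} (hp : 0 < p) {x : LL q R} (hx : NN x) : NN (phL q R p x) := by
  intro m m' h
  by_cases h1 : (p : ℤ) ∣ m
  · obtain ⟨a, rfl⟩ := h1
    rw [phL_coeff q hp]
    by_cases h2 : (p : ℤ) ∣ m'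
    · obtain ⟨a', rfl⟩ := h2
      rw [phO_coeff q hp, hx a a', map_zero]
      have hp' : (0 : ℤ) < p := by exact_mod_cast hp
      rcases h with h | h
      · left
        by_contra h3
        push Not at h3
        have := mul_nonneg hp'.le h3
        omega
      · right
        by_contra h3
        push Not at h3
        have := mul_nonneg hp'.le h3
        omega
    · rw [phO_coeff_ne q hp _ m' h2]
  · rw [phL_coeff_ne q hp x m h1]
    rfl

lemma NN.thLt {x : LL q R} (hx : NN x) : NN (thLt q R x) := by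
  intro m m' h
  rw [thLt_coeff, ← zsmul_eq_mul, HahnSeries.coeff_smul, hx m m' h, smul_zero]

lemma NN.thLw {x : LL q R} (hx : NN x) : NN (thLw q R x) := by
  intro m m' h
  rw [thLw_coeff, hx m m' h, mul_zero]

lemma NN.cgen {n M : ℕ} (D : ℕ) (f : MvPolynomial (Fin n) R) (β : Grid n M) :
    NN (cgen D f β) := by
  unfold Helper95_CM.cgen
  exact ((NN.natCast _).sub (NN.wL.mul (NN.kL _))).add ((NN.tL.pow D).mul (NN.vL _))

/-- torsion freeness -/
lemma CC_tf {p : ℕ} [Fact p.Prime] (x : CC q ℤ_[p]) (h : (p : CC q ℤ_[p]) * x = 0) : x = 0 := by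
  ext g
  have h1 : ((p : CC q ℤ_[p]) * x).coeff g = 0 := by rw [h]; rfl
  rw [← nsmul_eq_mul, HahnSeries.coeff_nsmul, Pi.smul_apply, nsmul_eq_mul] at h1
  have hp0 : (p : ℤ_[p]) ≠ 0 := by exact_mod_cast (Fact.out : p.Prime).ne_zero
  rcases mul_eq_zero.mp h1 with h2 | h2
  · exact absurd h2 hp0
  · exact h2

lemma cf2_natCast_mul (k : ℕ) (x : LL q R) (m m' : ℤ) :
    (((k : LL q R) * x).coeff m).coeff m' = (k : CC q R) * (x.coeff m).coeff m' := by
  rw [← nsmul_eq_mul, HahnSeries.coeff_nsmul, Pi.smul_apply, HahnSeries.coeff_nsmul,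
    Pi.smul_apply, nsmul_eq_mul]

/-- the subring is stable under all the structure -/
lemma subB_NNs {n M D p : ℕ} [Fact p.Prime] (f' : MvPolynomial (Fin n) ℤ_[p])
    (d : LL (qG n M) ℤ_[p] →+ LL (qG n M) ℤ_[p]) (hd : ∀ x, NN x → NN (d x)) :
    SubB (R := LL (qG n M) ℤ_[p]) p (kL (qG n M) ℤ_[p]) (phL (qG n M) ℤ_[p] p) d
      (cgen (M := M) D f') (NNs (qG n M) ℤ_[p]) := by
  have hp : 0 < p := (Fact.out : p.Prime).pos
  refine ⟨fun β => NN.cgen D f' β, fun a => NN.kL a, ?_, fun x hx => NN.phL hp hx,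
    fun x hx => hd x hx⟩
  intro x hx m m' h
  apply CC_tf
  have := hx m m' h
  rw [cf2_natCast_mul] at this
  exact this

end nn

/-! ### bounds -/

section bnd
variable {q p : ℕ} [Fact p.Prime]

/-- no negative exponents, and coefficients of low order bounded by `B` -/
def Bnd (X : ℤ) (B : ℝ) (y : LL q ℚ_[p]) : Prop :=
  NN y ∧ ∀ (m m' : ℤ) (g : Gam q), m ≤ X → m' ≤ X → ‖((y.coeff m).coeff m').coeff g‖ ≤ B

variable (p) in
/-- closed balls as subgroups -/
def ballS (B : ℝ) (hB : 0 ≤ B) : AddSubgroup ℚ_[p] where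
  carrier := {z | ‖z‖ ≤ B}
  add_mem' := by
    intro a b ha hb
    exact (IsUltrametricDist.norm_add_le_max a b).trans (max_le ha hb)
  zero_mem' := by
    show ‖(0 : ℚ_[p])‖ ≤ B
    rw [norm_zero]; exact hB
  neg_mem' := by
    intro a ha
    show ‖-a‖ ≤ B
    rw [norm_neg]; exact ha

lemma Bnd.zero {X : ℤ} {B : ℝ} (hB : 0 ≤ B) : Bnd X B (0 : LL q ℚ_[p]) := by
  refine ⟨NN.zero, ?_⟩
  intro m m' g _ _
  show ‖(0 : ℚ_[p])‖ ≤ B
  rw [norm_zero]; exact hB

lemma Bnd.add {X : ℤ} {B : ℝ} (hB : 0 ≤ B) {x y : LL q ℚ_[p]} (hx : Bnd X B x)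
    (hy : Bnd X B y) : Bnd X B (x + y) := by
  refine ⟨hx.1.add hy.1, ?_⟩
  intro m m' g hm hm'
  rw [HahnSeries.coeff_add, HahnSeries.coeff_add, HahnSeries.coeff_add]
  exact (ballS p B hB).add_mem (hx.2 m m' g hm hm') (hy.2 m m' g hm hm')

lemma Bnd.sum {X : ℤ} {B : ℝ} (hB : 0 ≤ B) {ι : Type} (T : Finset ι) (x : ι → LL q ℚ_[p])
    (h : ∀ i ∈ T, Bnd X B (x i)) : Bnd X B (∑ i ∈ T, x i) := by
  classical
  induction T using Finset.induction_on with
  | empty => rw [Finset.sum_empty]; exact Bnd.zero hB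
  | insert a T ha ih =>
    rw [Finset.sum_insert ha]
    exact Bnd.add hB (h a (Finset.mem_insert_self a T))
      (ih fun i hi => h i (Finset.mem_insert_of_mem hi))

lemma Bnd.mono {X : ℤ} {B B' : ℝ} (hB : B ≤ B') {x : LL q ℚ_[p]} (hx : Bnd X B x) :
    Bnd X B' x := ⟨hx.1, fun m m' g hm hm' => (hx.2 m m' g hm hm').trans hB⟩

lemma cf3_mL (r : LL q ℤ_[p]) (m m' : ℤ) (g : Gam q) :
    (((mL q (zq p) r).coeff m).coeff m').coeff g = zq p (((r.coeff m).coeff m').coeff g) := rfl

lemma norm_zq (a : ℤ_[p]) : ‖zq p a‖ ≤ 1 := by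
  show ‖(a : ℚ_[p])‖ ≤ 1
  exact a.2

lemma Bnd.mul {X : ℤ} {B : ℝ} (hB : 0 ≤ B) {r : LL q ℤ_[p]} (hr : NN r) {y : LL q ℚ_[p]}
    (hy : Bnd X B y) : Bnd X B (mL q (zq p) r * y) := by
  refine ⟨(hr.mL _).mul hy.1, ?_⟩
  intro m m' g hm hm'
  have : (((mL q (zq p) r * y).coeff m).coeff m').coeff g ∈ ballS p B hB := by
    apply cf3_mul_mem
    intro a b a' b' e e' hab hab' _
    by_cases h1 : a < 0 ∨ a' < 0
    · rw [cf3_mL, hr a a' h1]
      show zq p 0 * _ ∈ _
      rw [map_zero, zero_mul]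
      exact zero_mem _
    · push Not at h1
      have h2 := hy.2 b b' e' (by omega) (by omega)
      show ‖_ * _‖ ≤ B
      rw [norm_mul, cf3_mL]
      calc _ ≤ 1 * ‖((y.coeff b).coeff b').coeff e'‖ :=
            mul_le_mul_of_nonneg_right (norm_zq _) (norm_nonneg _)
        _ ≤ B := by rw [one_mul]; exact h2
  exact this

/-- multiplication by a constant -/
lemma cf3_kL_mul {R : Type} [CommRing R] (a : R) (y : LL q R) (m m' : ℤ) (g : Gam q) :
    (((kL q R a * y).coeff m).coeff m').coeff g = a * ((y.coeff m).coeff m').coeff g := by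
  show (((HahnSeries.C (HahnSeries.C (HahnSeries.C a)) * y : LL q R).coeff m).coeff m').coeff g = _
  rw [HahnSeries.C_apply, HahnSeries.coeff_single_zero_mul, HahnSeries.C_apply,
    HahnSeries.coeff_single_zero_mul, HahnSeries.C_apply, HahnSeries.coeff_single_zero_mul]

lemma phC_coeff {R : Type} [CommRing R] (hp : 0 < p) (x : CC q R) (g : Gam q) :
    (phC q R p x).coeff (p • g) = x.coeff g := hphi_coeff hp x g

lemma phC_coeff_ne {R : Type} [CommRing R] (hp : 0 < p) (x : CC q R) (g : Gam q)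
    (h : ∀ g', p • g' ≠ g) : (phC q R p x).coeff g = 0 := hphi_coeff_ne hp x g h

/-- values of a Frobenius twist -/
lemma cf3_phL {R : Type} [CommRing R] (hp : 0 < p) (x : LL q R) (m m' : ℤ) (g : Gam q) :
    (((phL q R p x).coeff m).coeff m').coeff g = 0 ∨
    ∃ (a a' : ℤ) (e : Gam q), (p : ℤ) * a = m ∧ (p : ℤ) * a' = m' ∧ p • e = g ∧
      (((phL q R p x).coeff m).coeff m').coeff g = ((x.coeff a).coeff a').coeff e := by
  by_cases h1 : (p : ℤ) ∣ m
  · obtain ⟨a, rfl⟩ := h1
    rw [phL_coeff q hp]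
    by_cases h2 : (p : ℤ) ∣ m'
    · obtain ⟨a', rfl⟩ := h2
      rw [phO_coeff q hp]
      by_cases h3 : ∃ e, p • e = g
      · obtain ⟨e, rfl⟩ := h3
        right
        exact ⟨a, a', e, rfl, rfl, rfl, phC_coeff hp _ e⟩
      · left
        push Not at h3
        exact phC_coeff_ne hp _ g h3
    · left
      rw [phO_coeff_ne q hp _ m' h2]
      rfl
  · left
    rw [phL_coeff_ne q hp x m h1]
    rfl

lemma Bnd.phL {X : ℤ} {B : ℝ} (hB : 0 ≤ B) {y : LL q ℚ_[p]} (hy : Bnd X B y) :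
    Bnd X B (phL q ℚ_[p] p y) := by
  have hp : 0 < p := (Fact.out : p.Prime).pos
  have hp' : (1 : ℤ) ≤ p := by exact_mod_cast hp
  refine ⟨hy.1.phL hp, ?_⟩
  intro m m' g hm hm'
  rcases cf3_phL (p := p) hp y m m' g with h | ⟨a, a', e, h1, h2, -, h3⟩
  · rw [h, norm_zero]; exact hB
  · rw [h3]
    by_cases h4 : a < 0 ∨ a' < 0
    · rw [hy.1 a a' h4]
      show ‖(0 : ℚ_[p])‖ ≤ B
      rw [norm_zero]; exact hB
    · push Not at h4
      apply hy.2
      · nlinarith [h4.1]
      · nlinarith [h4.2]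

end bnd

/-! ### reduction at `t = w = 0` -/

section red
variable {q : ℕ} {R S : Type} [CommRing R] [CommRing S]

/-- no negative exponents, and the value at `t = w = 0` is the constant `a` -/
def Red (x : LL q R) (a : R) : Prop := NN x ∧ (x.coeff 0).coeff 0 = HahnSeries.C a

lemma Red.zero : Red (0 : LL q R) 0 := by
  refine ⟨NN.zero, ?_⟩
  rw [map_zero]; rfl

lemma Red.add {x y : LL q R} {a b : R} (hx : Red x a) (hy : Red y b) : Red (x + y) (a + b) := by
  refine ⟨hx.1.add hy.1, ?_⟩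
  rw [HahnSeries.coeff_add, HahnSeries.coeff_add, hx.2, hy.2, map_add]

lemma Red.neg {x : LL q R} {a : R} (hx : Red x a) : Red (-x) (-a) := by
  refine ⟨hx.1.neg, ?_⟩
  rw [HahnSeries.coeff_neg, HahnSeries.coeff_neg, hx.2, map_neg]

lemma Red.sub {x y : LL q R} {a b : R} (hx : Red x a) (hy : Red y b) : Red (x - y) (a - b) := by
  rw [sub_eq_add_neg, sub_eq_add_neg]; exact hx.add hy.neg

lemma NN.cf00_mul {x y : LL q R} (hx : NN x) (hy : NN y) :
    ((x * y).coeff 0).coeff 0 = (x.coeff 0).coeff 0 * (y.coeff 0).coeff 0 := by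
  rw [coeff_zero_mul x y hx.ord hy.ord, coeff_zero_mul]
  · intro m hm; exact hx 0 m (Or.inr hm)
  · intro m hm; exact hy 0 m (Or.inr hm)

lemma Red.mul {x y : LL q R} {a b : R} (hx : Red x a) (hy : Red y b) : Red (x * y) (a * b) := by
  refine ⟨hx.1.mul hy.1, ?_⟩
  rw [hx.1.cf00_mul hy.1, hx.2, hy.2, map_mul]

lemma cf00_C (x : CC q R) :
    ((HahnSeries.C (HahnSeries.C x) : LL q R).coeff 0).coeff 0 = x := by
  rw [HahnSeries.C_apply, HahnSeries.coeff_single_same, HahnSeries.C_apply,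
    HahnSeries.coeff_single_same]

lemma Red.kL (a : R) : Red (kL q R a) a := ⟨NN.kL a, cf00_C _⟩

lemma Red.one : Red (1 : LL q R) 1 := by
  have h := Red.kL (q := q) (1 : R)
  rw [map_one] at h
  exact h

lemma Red.natCast (k : ℕ) : Red (k : LL q R) k := by
  have h := Red.kL (q := q) (k : R)
  rw [map_natCast] at h
  exact h

lemma Red.pow {x : LL q R} {a : R} (hx : Red x a) (k : ℕ) : Red (x ^ k) (a ^ k) := by
  induction k with
  | zero => rw [pow_zero, pow_zero]; exact Red.one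
  | succ k ih => rw [pow_succ, pow_succ]; exact ih.mul hx

lemma Red.sum {ι : Type} (T : Finset ι) (x : ι → LL q R) (a : ι → R)
    (h : ∀ i ∈ T, Red (x i) (a i)) : Red (∑ i ∈ T, x i) (∑ i ∈ T, a i) := by
  classical
  induction T using Finset.induction_on with
  | empty => rw [Finset.sum_empty, Finset.sum_empty]; exact Red.zero
  | insert b T hb ih =>
    rw [Finset.sum_insert hb, Finset.sum_insert hb]
    exact (h b (Finset.mem_insert_self b T)).add
      (ih fun i hi => h i (Finset.mem_insert_of_mem hi))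

lemma Red.mL (g : R →+* S) {x : LL q R} {a : R} (hx : Red x a) : Red (mL q g x) (g a) := by
  refine ⟨hx.1.mL g, ?_⟩
  show mC q g ((x.coeff 0).coeff 0) = _
  rw [hx.2, mC_C]

lemma Red.phL {p : ℕ} (hp : 0 < p) {x : LL q R} {a : R} (hx : Red x a) :
    Red (phL q R p x) a := by
  refine ⟨hx.1.phL hp, ?_⟩
  have h1 : (Helper95_CM.phL q R p x).coeff 0 = phO q R p (x.coeff 0) := by
    have := phL_coeff q hp x 0
    rw [mul_zero] at this
    exact this
  have h2 : (phO q R p (x.coeff 0)).coeff 0 = phC q R p ((x.coeff 0).coeff 0) := by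
    have := phO_coeff q hp (x.coeff 0) 0
    rw [mul_zero] at this
    exact this
  rw [h1, h2, hx.2]
  unfold phC hphi
  rw [dif_pos hp]
  exact HahnSeries.embDomainRingHom_C

lemma Red.wL_mul {x : LL q R} (hx : NN x) : Red (wL q R * x) 0 := by
  refine ⟨NN.wL.mul hx, ?_⟩
  rw [NN.wL.cf00_mul hx, map_zero]
  unfold wL wO tt
  rw [HahnSeries.C_apply, HahnSeries.coeff_single_same, HahnSeries.coeff_single_of_ne (by omega),
    zero_mul]

lemma Red.tL_pow_mul {D : ℕ} (hD : 1 ≤ D) {x : LL q R} (hx : NN x) :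
    Red (tL q R ^ D * x) 0 := by
  refine ⟨(NN.tL.pow D).mul hx, ?_⟩
  rw [(NN.tL.pow D).cf00_mul hx, map_zero]
  unfold tL tt
  rw [HahnSeries.single_pow, HahnSeries.coeff_single_of_ne (by simp; omega)]
  show (0 : CC q R) * _ = 0
  rw [zero_mul]

lemma Red.cgen {n M D : ℕ} (hD : 1 ≤ D) (f : MvPolynomial (Fin n) R) (β : Grid n M) :
    Red (cgen D f β) ((bin β : ℕ) : R) := by
  unfold Helper95_CM.cgen
  have h := ((Red.natCast (q := qG n M) (R := R) (bin β)).sub
    (Red.wL_mul (NN.kL (ftil f β)))).add (Red.tL_pow_mul hD (NN.vL (R := R) (gi β)))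
  rw [sub_zero, add_zero] at h
  exact h

/-- coefficientwise reduction of polynomials -/
def RedP {n : ℕ} (X : PP n (LL q R)) (A : PP n R) : Prop := ∀ s, Red (coeff s X) (coeff s A)

variable {n M : ℕ}

lemma RedP.zero : RedP (0 : PP n (LL q R)) 0 := fun _ => Red.zero

lemma RedP.add {X Y : PP n (LL q R)} {A B : PP n R} (hX : RedP X A) (hY : RedP Y B) :
    RedP (X + Y) (A + B) := by
  intro s
  rw [coeff_add, coeff_add]
  exact (hX s).add (hY s)

lemma RedP.sub {X Y : PP n (LL q R)} {A B : PP n R} (hX : RedP X A) (hY : RedP Y B) :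
    RedP (X - Y) (A - B) := by
  intro s
  rw [coeff_sub, coeff_sub]
  exact (hX s).sub (hY s)

lemma RedP.mul {X Y : PP n (LL q R)} {A B : PP n R} (hX : RedP X A) (hY : RedP Y B) :
    RedP (X * Y) (A * B) := by
  classical
  intro s
  rw [coeff_mul, coeff_mul]
  apply Red.sum
  intro i _
  exact (hX _).mul (hY _)

lemma RedP.sum {ι : Type} (T : Finset ι) (X : ι → PP n (LL q R)) (A : ι → PP n R)
    (h : ∀ i ∈ T, RedP (X i) (A i)) : RedP (∑ i ∈ T, X i) (∑ i ∈ T, A i) := by
  intro s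
  rw [coeff_sum, coeff_sum]
  exact Red.sum _ _ _ fun i hi => h i hi s

lemma RedP.monomial (s : Expo n) {x : LL q R} {a : R} (hx : Red x a) :
    RedP (monomial s x) (monomial s a) := by
  classical
  intro s'
  rw [coeff_monomial, coeff_monomial]
  split_ifs
  · exact hx
  · exact Red.zero

lemma RedP.C {x : LL q R} {a : R} (hx : Red x a) : RedP (C x : PP n (LL q R)) (C a) :=
  RedP.monomial 0 hx

lemma RedP.mon (s : Expo n) : RedP (mon s : PP n (LL q R)) (mon s) :=
  RedP.monomial s Red.one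

lemma RedP.pow {X : PP n (LL q R)} {A : PP n R} (hX : RedP X A) (k : ℕ) :
    RedP (X ^ k) (A ^ k) := by
  induction k with
  | zero =>
    rw [pow_zero, pow_zero]
    have := RedP.C (n := n) (Red.one (q := q) (R := R))
    rw [map_one, map_one] at this
    exact this
  | succ k ih => rw [pow_succ, pow_succ]; exact ih.mul hX

lemma RedP.psi {p : ℕ} (hp : 0 < p) {X : PP n (LL q R)} {A : PP n R} (hX : RedP X A) :
    RedP (psi p X) (psi p A) := by
  intro s
  rw [coeff_psi hp, coeff_psi hp]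
  exact hX _

lemma RedP.Fp {c : Grid n M → LL q R} {a : Grid n M → R} (h : ∀ β, Red (c β) (a β)) :
    RedP (Fp c) (Fp a) := RedP.sum _ _ _ fun β _ => RedP.monomial _ (h β)

end red

end H13

end Pool.Agent.Helper95_CM
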